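import Pool.Agent.PST.StmtsET2
import Pool.Agent.Helper52_PSS.FRB

/-!
# Row BKT of squad PST: fixed vectors are combinations of `V` and traces from the trivial group
-/

set_option autoImplicit false

open scoped BigOperators

noncomputable section

namespace Pool.Agent.PST.H13

open Pool.Agent.PFC (Fx BK cj IsTv)

/-- summation over a subgroup in two stages -/
theorem tv_two {V M : Type} [CommGroup V] [Fintype V] [DecidableEq V] [AddCommMonoid M]
    {P' P : Subgroup V} (hle : P' ≤ P) {S : Finset V} (hS : IsTv P' P S)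
    [DecidablePred (· ∈ P)] [DecidablePred (· ∈ P')] (f : V → M) :
    ∑ x ∈ S, ∑ p ∈ Finset.univ.filter (· ∈ P'), f (x * p) =
      ∑ v ∈ Finset.univ.filter (· ∈ P), f v := by
  choose! i hi hiu using hS.2
  rw [← Finset.sum_product']
  refine Finset.sum_nbij' (fun z => z.1 * z.2) (fun v => (i v, (i v)⁻¹ * v)) ?_ ?_ ?_ ?_ ?_
  · rintro ⟨x, p⟩ hz
    rw [Finset.mem_product] at hz
    simp only [Finset.mem_filter, Finset.mem_univ, true_and] at hz ⊢
    exact P.mul_mem (hS.1 x hz.1) (hle hz.2)
  · intro v hv
    simp only [Finset.mem_filter, Finset.mem_univ, true_and] at hv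
    rw [Finset.mem_product]
    simp only [Finset.mem_filter, Finset.mem_univ, true_and]
    exact hi v hv
  · rintro ⟨x, p⟩ hz
    rw [Finset.mem_product] at hz
    simp only [Finset.mem_filter, Finset.mem_univ, true_and] at hz
    have h1 : x * p ∈ P := P.mul_mem (hS.1 x hz.1) (hle hz.2)
    have h2 : x = i (x * p) := by
      refine hiu (x * p) h1 x ⟨hz.1, ?_⟩
      rw [inv_mul_cancel_left]
      exact hz.2
    simp only [Prod.mk.injEq]
    rw [← h2]
    exact ⟨rfl, inv_mul_cancel_left _ _⟩
  · intro v _
    exact mul_inv_cancel_left _ _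
  · intro z _
    rfl

theorem bkt : ET.BktStmt := by
  intro ℓ _ F V H _ _ _ _ _ _ α hp hB
  classical
  have hF : (ℓ : F) = 0 := CharP.cast_eq_zero F ℓ
  have hcj : ∀ (v : V) (m : H), cj F α v m = α v * m * α v⁻¹ := by
    intro v m
    change α v * (m * α v⁻¹) = _
    rw [mul_assoc]
  have hcu : ∀ (v u : V), cj F α v (α u) = α u := by
    intro v u
    rw [hcj, ← map_mul, ← map_mul, mul_comm v u, mul_inv_cancel_right]
  have hcc : ∀ (v : V) (c : V → F), cj F α v (∑ u, c u • α u) = ∑ u, c u • α u := by
    intro v c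
    rw [map_sum]
    refine Finset.sum_congr rfl fun u _ => ?_
    rw [map_smul, hcu]
  -- the submodule of the elements of the form
  let G : Subgroup V → Submodule F H := fun R =>
    { carrier := {a | ∃ (c : V → F) (m : H),
        a = ∑ u, c u • α u + ∑ v ∈ Finset.univ.filter (· ∈ R), cj F α v m}
      add_mem' := by
        rintro a b ⟨c, m, rfl⟩ ⟨c', m', rfl⟩
        refine ⟨c + c', m + m', ?_⟩
        simp only [Pi.add_apply, add_smul, map_add, Finset.sum_add_distrib]
        abel
      zero_mem' := by
        refine ⟨0, 0, ?_⟩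
        simp
      smul_mem' := by
        rintro r a ⟨c, m, rfl⟩
        refine ⟨r • c, r • m, ?_⟩
        simp only [Pi.smul_apply, smul_add, map_smul, Finset.smul_sum, smul_eq_mul, mul_smul] }
  have key : ∀ n : ℕ, ∀ R : Subgroup V, Nat.card R = n → ∀ a ∈ Fx (cj F α) R, a ∈ G R := by
    intro n
    induction n using Nat.strong_induction_on with
    | _ n ih =>
    intro R hn a ha
    by_cases hR : R ≤ ⊥
    · have hR' : R = ⊥ := le_bot_iff.1 hR
      refine ⟨0, a, ?_⟩
      have e : Finset.univ.filter (· ∈ R) = {(1 : V)} := by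
        ext v
        simp only [Finset.mem_filter, Finset.mem_univ, true_and, Finset.mem_singleton]
        rw [hR', Subgroup.mem_bot]
      rw [e, Finset.sum_singleton, map_one]
      simp
    · obtain ⟨c, hc⟩ := hB R hR a ha
      have h1 : BK (cj F α) R ≤ G R := by
        unfold BK
        rw [Submodule.span_le]
        rintro x ⟨P', S, m, hlt, hS, hm, rfl⟩
        have hcard : Nat.card P' < n := by
          rw [← hn]
          by_contra hcon
          exact hlt.ne (Subgroup.eq_of_le_of_card_ge hlt.le (not_lt.1 hcon))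
        obtain ⟨c', m', hm'⟩ := ih _ hcard P' rfl m hm
        refine ⟨0, m', ?_⟩
        rw [hm']
        have e1 : ∀ x, cj F α x (∑ u, c' u • α u +
            ∑ v ∈ Finset.univ.filter (· ∈ P'), cj F α v m') = ∑ u, c' u • α u +
            ∑ v ∈ Finset.univ.filter (· ∈ P'), cj F α (x * v) m' := by
          intro x
          rw [map_add, hcc, map_sum]
          congr 1
          refine Finset.sum_congr rfl fun v _ => ?_
          rw [map_mul]
          rfl
        simp only [e1]
        rw [Finset.sum_add_distrib, tv_two hlt.le hS (fun v => cj F α v m'), Finset.sum_const,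
          ← Nat.cast_smul_eq_nsmul F,
          Pool.Agent.PSS.H52.card_tv_zero ℓ hF (hp.to_subgroup R) hlt hS, zero_smul]
        simp
      have h2 : ∑ u, c u • α u ∈ G R := by
        refine ⟨c, 0, ?_⟩
        simp
      have h3 := (G R).add_mem (h1 hc) h2
      rwa [sub_add_cancel] at h3
  intro R _ a ha
  obtain ⟨c, m, hcm⟩ := key _ R rfl a ha
  refine ⟨c, m, ?_⟩
  rw [hcm]
  congr 1
  rw [Finset.sum_subtype (Finset.univ.filter (· ∈ R)) (p := fun x => x ∈ R) (by simp)]
  exact Finset.sum_congr rfl fun v _ => hcj _ _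

end Pool.Agent.PST.H13
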