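import Pool.Agent.PST.StmtsET2

/-!
# Row CIL_ET of squad PST: an idempotent which is central modulo `π` is central
-/

set_option autoImplicit false

open scoped BigOperators

noncomputable section

namespace Pool.Agent.PST.H13

open Pool.Agent.PFD.D2 (Cdv FibG)

theorem cil (hTor : ET.TorStmt) : ET.CilStmt := by
  intro R F D H _ _ c _ _ _ _ _ f b hb hc a
  obtain ⟨t1, t2⟩ := hTor R F D c
  have k1 : ∀ x : D, c.π • x = 0 → x = 0 := fun x hx => t1 1 x (by rw [pow_one]; exact hx)
  have h1 : ∀ x : D, b * x = x → x * b = 0 → x = 0 := by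
    intro x hx1 hx2
    apply t2
    have h : ∀ n : ℕ, ∃ y, (b * y = y ∧ y * b = 0) ∧ x = c.π ^ n • y := by
      intro n
      induction n with
      | zero => exact ⟨x, ⟨hx1, hx2⟩, by rw [pow_zero, one_smul]⟩
      | succ n ih =>
        obtain ⟨y, ⟨hy1, hy2⟩, hy⟩ := ih
        have hq : f.q y = 0 := by
          rw [← hy1, map_mul, hc, ← map_mul, hy2, map_zero]
        obtain ⟨z, hz⟩ := f.ker y hq
        refine ⟨z, ⟨?_, ?_⟩, ?_⟩
        · rw [← sub_eq_zero]
          apply k1
          rw [smul_sub, ← mul_smul_comm, ← hz, hy1, sub_self]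
        · apply k1
          rw [← smul_mul_assoc, ← hz, hy2]
        · rw [hy, hz, smul_smul, pow_succ]
    intro n
    obtain ⟨y, _, hy⟩ := h n
    exact ⟨y, hy⟩
  have h2 : ∀ x : D, x * b = x → b * x = 0 → x = 0 := by
    intro x hx1 hx2
    apply t2
    have h : ∀ n : ℕ, ∃ y, (y * b = y ∧ b * y = 0) ∧ x = c.π ^ n • y := by
      intro n
      induction n with
      | zero => exact ⟨x, ⟨hx1, hx2⟩, by rw [pow_zero, one_smul]⟩
      | succ n ih =>
        obtain ⟨y, ⟨hy1, hy2⟩, hy⟩ := ih
        have hq : f.q y = 0 := by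
          rw [← hy1, map_mul, ← hc, ← map_mul, hy2, map_zero]
        obtain ⟨z, hz⟩ := f.ker y hq
        refine ⟨z, ⟨?_, ?_⟩, ?_⟩
        · rw [← sub_eq_zero]
          apply k1
          rw [smul_sub, ← smul_mul_assoc, ← hz, hy1, sub_self]
        · apply k1
          rw [← mul_smul_comm, ← hz, hy2]
        · rw [hy, hz, smul_smul, pow_succ]
    intro n
    obtain ⟨y, _, hy⟩ := h n
    exact ⟨y, hy⟩
  have e1 : b * a = b * a * b := by
    rw [← sub_eq_zero]
    apply h1
    · rw [mul_sub, ← mul_assoc, hb, ← mul_assoc, ← mul_assoc, hb]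
    · rw [sub_mul, mul_assoc (b * a) b b, hb, sub_self]
  have e2 : a * b = b * a * b := by
    rw [← sub_eq_zero]
    apply h2
    · rw [sub_mul, mul_assoc a b b, hb, mul_assoc (b * a) b b, hb]
    · rw [mul_sub, ← mul_assoc, ← mul_assoc, ← mul_assoc, hb, sub_self]
  rw [e1, e2]

end Pool.Agent.PST.H13
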