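import Pool.Agent.PST.StmtsGR

/-!
# Row ECA of squad PST: the chain for an abelian group of operators
-/

set_option autoImplicit false

namespace Pool.Agent.PST.H13

open Pool.Agent.PST Pool.Agent.PSS

theorem eca : EcaStmt := by
  intro ℓ V _ _ E hl h2 hp hc hE
  have key : ∀ n : ℕ, ∀ P : Subgroup V, Nat.card P = n → P ≠ ⊥ →
      (∀ a ∈ E, ∀ u ∈ P, a u ∈ P) → ∃ W U X : Subgroup V, ChA ℓ E P W ∧ Frw E W U X := by
    intro n
    induction n using Nat.strong_induction_on with
    | _ n ih =>
    intro P hn hP hst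
    by_cases hmin : ∃ Q : Subgroup V, ⊥ < Q ∧ Q < P ∧ ∀ a ∈ E, ∀ u ∈ Q, a u ∈ Q
    · obtain ⟨P', ⟨hP0, hPP, hPs⟩, hmax⟩ :=
        (Set.toFinite {Q : Subgroup V | ⊥ < Q ∧ Q < P ∧ ∀ a ∈ E, ∀ u ∈ Q, a u ∈ Q}).exists_maximal
          hmin
      have hm : ∀ Q : Subgroup V, (∀ a ∈ E, ∀ u ∈ Q, a u ∈ Q) → P' < Q → Q ≤ P → Q = P := by
        intro Q hQs hQ1 hQ2
        by_contra hne
        have h3 := hmax ⟨hP0.trans hQ1, lt_of_le_of_ne hQ2 hne, hQs⟩ hQ1.le
        exact absurd hQ1 (not_lt_of_ge h3)
      have hcard : Nat.card P' < n := by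
        rw [← hn]
        by_contra hcon
        exact hPP.ne (Subgroup.eq_of_le_of_card_ge hPP.le (not_lt.1 hcon))
      obtain ⟨W, U, X, h4, h5⟩ := ih _ hcard P' rfl hP0.ne' hPs
      refine ⟨W, U, X, ChA.step P P' W ⟨hPP.le, hPs, Or.inr ⟨h2, ?_, ?_, ?_⟩⟩ h4, h5⟩
      · let R : Subgroup V :=
          { carrier := {v | v ∈ P ∧ v ^ ℓ ∈ P'}
            mul_mem' := by
              rintro v w ⟨hv, hv'⟩ ⟨hw, hw'⟩
              refine ⟨P.mul_mem hv hw, ?_⟩
              rw [Commute.mul_pow (hc v w)]
              exact P'.mul_mem hv' hw'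
            one_mem' := ⟨P.one_mem, by rw [one_pow]; exact P'.one_mem⟩
            inv_mem' := by
              rintro v ⟨hv, hv'⟩
              refine ⟨P.inv_mem hv, ?_⟩
              rw [inv_pow]
              exact P'.inv_mem hv' }
        have hR : R = P := by
          apply hm R
          · rintro a ha u ⟨hu, hu'⟩
            refine ⟨hst a ha u hu, ?_⟩
            rw [← map_pow]
            exact hPs a ha _ hu'
          · obtain ⟨v, hv, hv'⟩ := SetLike.exists_of_lt hPP
            have hex : ∃ k, v ^ (ℓ ^ k) ∈ P' := by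
              obtain ⟨k, hk⟩ := hp v
              exact ⟨k, by rw [hk]; exact P'.one_mem⟩
            classical
            obtain ⟨k, hk, hk'⟩ : ∃ k, v ^ (ℓ ^ k) ∈ P' ∧ ∀ m < k, v ^ (ℓ ^ m) ∉ P' :=
              ⟨Nat.find hex, Nat.find_spec hex, fun m hm => Nat.find_min hex hm⟩
            obtain ⟨j, rfl⟩ : ∃ j, k = j + 1 := by
              rcases k with _ | j
              · rw [pow_zero, pow_one] at hk
                exact absurd hk hv'
              · exact ⟨j, rfl⟩
            apply SetLike.lt_iff_le_and_exists.2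
            refine ⟨fun x hx => ⟨hPP.le hx, P'.pow_mem hx _⟩, v ^ (ℓ ^ j), ⟨P.pow_mem hv _, ?_⟩,
              hk' j (Nat.lt_succ_self j)⟩
            rw [← pow_mul, ← pow_succ]
            exact hk
          · exact fun x hx => hx.1
        intro v hv
        rw [← hR] at hv
        exact hv.2
      · intro a ha v hv hv1 hv2 w hw
        let R : Subgroup V :=
          { carrier := {v | v ∈ P ∧ a v * v⁻¹ ∈ P'}
            mul_mem' := by
              rintro v w ⟨hv, hv'⟩ ⟨hw, hw'⟩
              refine ⟨P.mul_mem hv hw, ?_⟩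
              have h6 : a (v * w) * (v * w)⁻¹ = (a v * v⁻¹) * (a w * w⁻¹) := by
                calc a (v * w) * (v * w)⁻¹ = a v * a w * (w⁻¹ * v⁻¹) := by
                      rw [map_mul, mul_inv_rev]
                  _ = a v * ((a w * w⁻¹) * v⁻¹) := by group
                  _ = a v * (v⁻¹ * (a w * w⁻¹)) := by rw [hc (a w * w⁻¹) v⁻¹]
                  _ = (a v * v⁻¹) * (a w * w⁻¹) := by group
              rw [h6]
              exact P'.mul_mem hv' hw'
            one_mem' := ⟨P.one_mem, by rw [map_one, inv_one, mul_one]; exact P'.one_mem⟩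
            inv_mem' := by
              rintro v ⟨hv, hv'⟩
              refine ⟨P.inv_mem hv, ?_⟩
              have h6 : a v⁻¹ * v⁻¹⁻¹ = (a v * v⁻¹)⁻¹ := by
                rw [map_inv, ← mul_inv_rev, hc]
              rw [h6]
              exact P'.inv_mem hv' }
        have hR : R = P := by
          apply hm R
          · rintro b hb u ⟨hu, hu'⟩
            refine ⟨hst b hb u hu, ?_⟩
            have h6 : a (b u) * (b u)⁻¹ = b (a u * u⁻¹) := by
              rw [map_mul, map_inv, hE a ha b hb]
            rw [h6]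
            exact hPs b hb _ hu'
          · apply SetLike.lt_iff_le_and_exists.2
            refine ⟨fun x hx => ⟨hPP.le hx, P'.mul_mem (hPs a ha x hx) (P'.inv_mem hx)⟩, v,
              ⟨hv, hv2⟩, hv1⟩
          · exact fun x hx => hx.1
        rw [← hR] at hw
        exact hw.2
      · intro a ha b hb v _
        exact hE a ha b hb v
    · refine ⟨P, P, ⊥, ChA.refl P, ⟨inf_bot_eq _, sup_bot_eq _, hP, hst, ?_, ?_⟩⟩
      · intro a _ x hx
        rw [Subgroup.mem_bot] at hx ⊢
        rw [hx, map_one]
      · intro a ha u hu hu1 hau w hw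
        let R : Subgroup V :=
          { carrier := {v | v ∈ P ∧ a v = v}
            mul_mem' := by
              rintro v w ⟨hv, hv'⟩ ⟨hw, hw'⟩
              refine ⟨P.mul_mem hv hw, ?_⟩
              rw [map_mul, hv', hw']
            one_mem' := ⟨P.one_mem, map_one _⟩
            inv_mem' := by
              rintro v ⟨hv, hv'⟩
              refine ⟨P.inv_mem hv, ?_⟩
              rw [map_inv, hv'] }
        have hR : R = P := by
          by_contra hne
          apply hmin
          refine ⟨R, ?_, lt_of_le_of_ne (fun x hx => hx.1) hne, ?_⟩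
          · apply bot_lt_iff_ne_bot.2
            intro hb
            have h7 : u ∈ R := ⟨hu, hau⟩
            rw [hb] at h7
            exact hu1 (Subgroup.mem_bot.1 h7)
          · rintro b hb v ⟨hv, hv'⟩
            refine ⟨hst b hb v hv, ?_⟩
            rw [hE a ha b hb, hv']
        rw [← hR] at hw
        exact hw.2
  intro P hP hst
  exact key _ P rfl hP hst

end Pool.Agent.PST.H13
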