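import Pool.Agent.PST.StmtsCL

/-!
# Row GNW of squad PST: a generic element
-/

set_option autoImplicit false

open scoped BigOperators

namespace Pool.Agent.PST.H13

open Pool.Agent.PSS Pool.Agent.PST

theorem gnw : GnwStmt := by
  intro ℓ _ W E _ _ _ _ ψ hp hE hc
  classical
  have _ : Fintype E := Fintype.ofFinite E
  have hcc : ∀ (e f : E) (w : W), ψ e (ψ f w) = ψ f (ψ e w) := by
    intro e f w
    have := congrArg (fun z : MulAut W => z w) (hc e f)
    exact this
  obtain ⟨w0, hw0⟩ := Finite.exists_min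
    (fun w : W => (Finset.univ.filter fun e : E => ψ e w = w).card)
  refine ⟨w0, fun e he => ?_⟩
  by_contra hne
  obtain ⟨w, hw⟩ : ∃ w, ψ e w ≠ w := by
    by_contra hcon
    push Not at hcon
    exact hne (MulEquiv.ext fun w => hcon w)
  let N : W →* W := ∏ i ∈ Finset.range (orderOf e), (ψ (e ^ i)).toMonoidHom
  have hN : ∀ x, N x = ∏ i ∈ Finset.range (orderOf e), ψ (e ^ i) x := by
    intro x
    change (∏ i ∈ Finset.range (orderOf e), (ψ (e ^ i)).toMonoidHom) x = _
    rw [MonoidHom.finsetProd_apply]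
    rfl
  have hNe : ∀ x, N (ψ e x) = N x := by
    intro x
    rw [hN, hN]
    have h1 : ∀ i, ψ (e ^ i) (ψ e x) = ψ (e ^ (i + 1)) x := by
      intro i
      rw [pow_succ, map_mul]
      rfl
    simp only [h1]
    have h2 := Finset.prod_range_succ (fun i => ψ (e ^ i) x) (orderOf e)
    have h3 := Finset.prod_range_succ' (fun i => ψ (e ^ i) x) (orderOf e)
    rw [h3, pow_orderOf_eq_one, pow_zero] at h2
    exact mul_right_cancel h2
  have hNf : ∀ f x, N (ψ f x) = ψ f (N x) := by
    intro f x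
    rw [hN, hN, map_prod]
    exact Finset.prod_congr rfl fun i _ => hcc _ _ _
  have hNc : ∀ c, ψ e c = c → N c = c ^ orderOf e := by
    intro c hc
    have h1 : ∀ i, ψ (e ^ i) c = c := by
      intro i
      induction i with
      | zero => rw [pow_zero, map_one]; rfl
      | succ i ih =>
        rw [pow_succ, map_mul]
        change ψ (e ^ i) (ψ e c) = c
        rw [hc, ih]
    rw [hN]
    simp only [h1]
    rw [Finset.prod_const, Finset.card_range]
  have hCK : ∀ c, ψ e c = c → N c = 1 → c = 1 := by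
    intro c h1 h2
    rw [hNc c h1] at h2
    obtain ⟨k, hk⟩ := IsPGroup.iff_orderOf.1 hp c
    have h3 : orderOf c ∣ orderOf e := orderOf_dvd_of_pow_eq_one h2
    rcases Nat.eq_zero_or_pos k with h4 | h4
    · rw [h4, pow_zero] at hk
      exact orderOf_eq_one_iff.1 hk
    · exfalso
      apply hE
      refine ((dvd_pow_self ℓ h4.ne').trans ?_).trans (orderOf_dvd_natCard e)
      rw [← hk]
      exact h3
  obtain ⟨w1, hw1⟩ : ∃ w1, w1 = ψ e w * w⁻¹ := ⟨_, rfl⟩
  have hw1N : N w1 = 1 := by
    rw [hw1, map_mul, hNe, map_inv, mul_inv_cancel]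
  have hw1e : ψ e w1 ≠ w1 := by
    intro h
    have h1 := hCK w1 h hw1N
    rw [hw1, mul_inv_eq_one] at h1
    exact hw h1
  have hsub : (Finset.univ.filter fun f : E => ψ f (w0 * w1) = w0 * w1) ⊂
      (Finset.univ.filter fun f : E => ψ f w0 = w0) := by
    have key : ∀ f : E, ψ f (w0 * w1) = w0 * w1 → ψ f w0 = w0 ∧ ψ f w1 = w1 := by
      intro f hf
      rw [map_mul] at hf
      have h1 : ψ f w0 * w0⁻¹ = w1 * (ψ f w1)⁻¹ := by
        rw [mul_inv_eq_iff_eq_mul, mul_assoc, mul_comm _ w0, ← mul_assoc, mul_comm w1 w0, ← hf,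
          mul_assoc, mul_inv_cancel, mul_one]
      have h2 : ψ f w0 * w0⁻¹ = 1 := by
        apply hCK
        · rw [map_mul, map_inv, hcc, he]
        · rw [h1, map_mul, map_inv, hNf, hw1N, map_one, inv_one, mul_one]
      rw [h2] at h1
      exact ⟨mul_inv_eq_one.1 h2, (mul_inv_eq_one.1 h1.symm).symm⟩
    rw [Finset.ssubset_iff_of_subset]
    · refine ⟨e, ?_, ?_⟩
      · rw [Finset.mem_filter]
        exact ⟨Finset.mem_univ _, he⟩
      · rw [Finset.mem_filter]
        rintro ⟨_, h⟩
        exact hw1e (key e h).2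
    · intro f hf
      rw [Finset.mem_filter] at hf ⊢
      exact ⟨hf.1, (key f hf.2).1⟩
  exact absurd (hw0 (w0 * w1)) (not_le.2 (Finset.card_lt_card hsub))

end Pool.Agent.PST.H13
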