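import Pool.Agent.PST.StmtsGR
import Pool.Agent.Helper49_PSS.TWN

/-!
# Row LST of squad PST: a chain down to `1` can be stopped at a subgroup with a free action
-/

set_option autoImplicit false

namespace Pool.Agent.PST.H13

open Pool.Agent.PST Pool.Agent.PSS

theorem lst : LstStmt := by
  intro ℓ V _ _ E hl hp hE P hP hst h
  obtain ⟨W0, hW0⟩ : ∃ W0 : Subgroup V, W0 = ⊥ := ⟨_, rfl⟩
  rw [← hW0] at h
  induction h with
  | refl P => exact absurd hW0 hP
  | step P P' W hs h ih =>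
    by_cases hP' : P' = ⊥
    · refine ⟨P, P, ⊥, ChA.refl P, ⟨inf_bot_eq _, sup_bot_eq _, hP, hst, ?_, ?_⟩⟩
      · intro a _ x hx
        rw [Subgroup.mem_bot] at hx ⊢
        rw [hx, map_one]
      · intro a ha u hu hu1 hau w hw
        rcases hs.tp with ⟨Y, _, hYP, ⟨y0, hy0, hy⟩, hYs⟩ | ⟨_, _, h2, _⟩
        · rw [hP', sup_bot_eq] at hYP
          rw [← hYP] at hu hw
          obtain ⟨k, hk⟩ := hy _ (hYs a ha y0 hy0)
          obtain ⟨j, hj⟩ := hy u hu
          obtain ⟨i, hi⟩ := hy w hw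
          have h1 := Pool.Agent.PSS.H49.fix_cyc hl hp hE ha hk hj hu1 hau
          rw [hi, map_zpow, h1]
        · rw [hP'] at h2
          have h3 := h2 a ha u hu (fun h => hu1 (Subgroup.mem_bot.1 h))
            (by rw [hau, mul_inv_cancel]; exact Subgroup.one_mem _) w hw
          exact mul_inv_eq_one.1 (Subgroup.mem_bot.1 h3)
    · obtain ⟨W1, U, X, h1, h2⟩ := ih hP' hs.st hW0
      exact ⟨W1, U, X, ChA.step P P' W1 hs h1, h2⟩

end Pool.Agent.PST.H13
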