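import Pool.Agent.PST.StmtsK3

/-!
# Row OBC of squad PST: the forms vanish on traces
-/

set_option autoImplicit false

open scoped BigOperators

noncomputable section

namespace Pool.Agent.PST.H13

open Pool.Agent.PSS
open Pool.Agent.PFC (IsTv)

section tv

variable {V M : Type} [CommGroup V] [AddCommMonoid M]

/-- the trace does not depend on the transversal -/
theorem tv_indep {P' P : Subgroup V} {S1 S2 : Finset V} (h1 : IsTv P' P S1) (h2 : IsTv P' P S2)
    (f : V → M) (hf : ∀ x, ∀ p ∈ P', f (x * p) = f x) : ∑ s ∈ S1, f s = ∑ s ∈ S2, f s := by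
  classical
  choose! i hi _ using fun s (hs : s ∈ S1) => h2.2 s (h1.1 s hs)
  choose! j hj _ using fun s (hs : s ∈ S2) => h1.2 s (h2.1 s hs)
  refine Finset.sum_nbij' i j (fun s hs => (hi s hs).1) (fun s hs => (hj s hs).1) ?_ ?_ ?_
  · intro s hs
    have e1 := hi s hs
    have e2 := hj _ e1.1
    refine (h1.2 (i s) (h2.1 _ e1.1)).unique e2 ⟨hs, ?_⟩
    have e3 := P'.inv_mem e1.2
    rwa [mul_inv_rev, inv_inv] at e3
  · intro s hs
    have e1 := hj s hs
    have e2 := hi _ e1.1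
    refine (h2.2 (j s) (h1.1 _ e1.1)).unique e2 ⟨hs, ?_⟩
    have e3 := P'.inv_mem e1.2
    rwa [mul_inv_rev, inv_inv] at e3
  · intro s hs
    have e1 := hi s hs
    have e2 := hf (i s) _ e1.2
    rw [mul_inv_cancel_left] at e2
    exact e2

theorem tv_mul [DecidableEq V] {P' P : Subgroup V} {S : Finset V} (h : IsTv P' P S) {t : V}
    (ht : t ∈ P) : IsTv P' P (S.image fun x => t * x) := by
  constructor
  · intro s hs
    rw [Finset.mem_image] at hs
    obtain ⟨x, hx, rfl⟩ := hs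
    exact P.mul_mem ht (h.1 x hx)
  · intro p hp
    obtain ⟨s, ⟨hs1, hs2⟩, hs3⟩ := h.2 (t⁻¹ * p) (P.mul_mem (P.inv_mem ht) hp)
    refine ⟨t * s, ⟨Finset.mem_image_of_mem _ hs1, ?_⟩, ?_⟩
    · rw [mul_inv_rev, mul_assoc]
      exact hs2
    · rintro y ⟨hy1, hy2⟩
      rw [Finset.mem_image] at hy1
      obtain ⟨x, hx, rfl⟩ := hy1
      rw [mul_inv_rev, mul_assoc] at hy2
      rw [hs3 x ⟨hx, hy2⟩]

end tv

section inr

variable {R K : Type} [CommRing R] [Field K] [Algebra R K]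

theorem inR_zero : InR R (0 : K) := ⟨0, map_zero _⟩

theorem inR_add {s t : K} (hs : InR R s) (ht : InR R t) : InR R (s + t) := by
  obtain ⟨a, rfl⟩ := hs
  obtain ⟨b, rfl⟩ := ht
  exact ⟨a + b, map_add _ _ _⟩

theorem inR_neg {s : K} (hs : InR R s) : InR R (-s) := by
  obtain ⟨a, rfl⟩ := hs
  exact ⟨-a, map_neg _ _⟩

theorem inR_sub {s t : K} (hs : InR R s) (ht : InR R t) : InR R (s - t) := by
  rw [sub_eq_add_neg]
  exact inR_add hs (inR_neg ht)

theorem inR_sum {ι : Type} (S : Finset ι) (f : ι → K) (h : ∀ i ∈ S, InR R (f i)) :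
    InR R (∑ i ∈ S, f i) := by
  classical
  induction S using Finset.induction_on with
  | empty => rw [Finset.sum_empty]; exact inR_zero
  | insert a S ha ih =>
    rw [Finset.sum_insert ha]
    exact inR_add (h a (Finset.mem_insert_self _ _)) (ih fun i hi =>
      h i (Finset.mem_insert_of_mem hi))

end inr

/-- generators of a finite `ℓ`-group over a maximal subgroup -/
theorem max_gen {ℓ : ℕ} [Fact ℓ.Prime] {V : Type} [CommGroup V] [Finite V] (hp : IsPGroup ℓ V)
    {P' T : Subgroup V} (hlt : P' < T) : ∃ (T' : Subgroup V) (g : V), P' ≤ T' ∧ T' ≤ T ∧ g ∈ T ∧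
      g ∉ T' ∧ g ^ ℓ ∈ T' ∧ ∀ x ∈ T, ∃ y ∈ T', ∃ n : ℕ, x = y * g ^ n := by
  obtain ⟨T', ⟨hT1, hT2⟩, hmax⟩ :=
    (Set.toFinite {Q : Subgroup V | P' ≤ Q ∧ Q < T}).exists_maximal ⟨P', le_rfl, hlt⟩
  obtain ⟨v, hv, hv'⟩ := SetLike.exists_of_lt hT2
  have hex : ∃ k, v ^ (ℓ ^ k) ∈ T' := by
    obtain ⟨k, hk⟩ := hp v
    exact ⟨k, by rw [hk]; exact T'.one_mem⟩
  classical
  obtain ⟨k, hk, hk'⟩ : ∃ k, v ^ (ℓ ^ k) ∈ T' ∧ ∀ m < k, v ^ (ℓ ^ m) ∉ T' :=
    ⟨Nat.find hex, Nat.find_spec hex, fun m hm => Nat.find_min hex hm⟩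
  obtain ⟨j, rfl⟩ : ∃ j, k = j + 1 := by
    rcases k with _ | j
    · rw [pow_zero, pow_one] at hk
      exact absurd hk hv'
    · exact ⟨j, rfl⟩
  refine ⟨T', v ^ (ℓ ^ j), hT1, hT2.le, T.pow_mem hv _, hk' j (Nat.lt_succ_self j), ?_, ?_⟩
  · rw [← pow_mul, ← pow_succ]
    exact hk
  · intro x hx
    have h1 : T' ⊔ Subgroup.zpowers (v ^ (ℓ ^ j)) = T := by
      by_contra hne
      have h2 : T' ⊔ Subgroup.zpowers (v ^ (ℓ ^ j)) ≤ T :=
        sup_le hT2.le (by rw [Subgroup.zpowers_le]; exact T.pow_mem hv _)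
      have h3 := hmax ⟨hT1.trans le_sup_left, lt_of_le_of_ne h2 hne⟩ le_sup_left
      exact hk' j (Nat.lt_succ_self j) (h3 (Subgroup.mem_sup_right (Subgroup.mem_zpowers _)))
    rw [← h1, Subgroup.mem_sup] at hx
    obtain ⟨y, hy, z, hz, rfl⟩ := hx
    obtain ⟨n, hn⟩ := (mem_powers_iff_mem_zpowers.2 hz)
    exact ⟨y, hy, n, by rw [← hn]⟩

theorem obc (oba : ObaStmt) (obb : ObbStmt) (obn : ObnStmt) : ObcStmt := by
  intro R K V A B κ Ω _ _ _ _ _ _ _ _ _ _ _ _ _ W α lam x y b c C cc ℓ _ hpg hW hZ T z hz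
  obtain ⟨a1, a2, a3, a4⟩ := oba R K V A B κ Ω W α lam x y b c C cc hZ
  obtain ⟨_, b2⟩ := obb R K V A B κ Ω W α lam x y b c C cc hZ
  have hn := obn R K V A B κ Ω W α lam x y b c C cc hZ
  classical
  unfold BKR at hz
  induction hz using Submodule.span_induction with
  | zero =>
    intro u _ v _
    rw [map_zero, zero_mul, map_zero]
    exact inR_zero
  | add z z' _ _ ih ih' =>
    intro u hu v hv
    rw [map_add, add_mul, map_add]
    exact inR_add (ih u hu v hv) (ih' u hu v hv)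
  | smul r z _ ih =>
    intro u hu v hv
    obtain ⟨s, hs⟩ := ih u hu v hv
    refine ⟨r * s, ?_⟩
    rw [map_smul, ← C.tow, smul_mul_assoc, map_smul, map_mul, hs, smul_eq_mul]
  | mem z hz =>
    obtain ⟨P', S, m, hlt, hS, hm, rfl⟩ := hz
    obtain ⟨T', g, hPT, hTT, hg, hg', hgl, hgen⟩ := max_gen hpg hlt
    have hf : ∀ x, ∀ p ∈ P', cw R α (x * p) m = cw R α x m := by
      intro x p hp
      rw [map_mul, Module.End.mul_apply, hm p hp]
    -- the classes of `T'`
    have hcl : ∀ x ∈ T, ∃ j < ℓ, (g ^ j)⁻¹ * x ∈ T' := by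
      intro x hx
      obtain ⟨y, hy, n, rfl⟩ := hgen x hx
      refine ⟨n % ℓ, Nat.mod_lt _ (Fact.out : ℓ.Prime).pos, ?_⟩
      have e : (g ^ (n % ℓ))⁻¹ * (y * g ^ n) = y * (g ^ ℓ) ^ (n / ℓ) := by
        have e1 : g ^ n = g ^ (n % ℓ) * (g ^ ℓ) ^ (n / ℓ) := by
          rw [← pow_mul, ← pow_add, Nat.mod_add_div]
        rw [e1, mul_left_comm y, inv_mul_cancel_left]
      rw [e]
      exact T'.mul_mem hy (T'.pow_mem hgl _)
    have huq0 : ∀ j k : ℕ, j < k → k < ℓ → ∀ x, (g ^ j)⁻¹ * x ∈ T' → (g ^ k)⁻¹ * x ∈ T' → False := by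
      intro j k hjk hk x h1 h2
      have h3 : g ^ (k - j) ∈ T' := by
        have h4 := T'.mul_mem h1 (T'.inv_mem h2)
        have e : (g ^ j)⁻¹ * x * ((g ^ k)⁻¹ * x)⁻¹ = g ^ (k - j) := by
          rw [mul_inv_rev, inv_inv, mul_assoc, mul_inv_cancel_left, inv_mul_eq_iff_eq_mul, ← pow_add]
          congr 1
          omega
        rwa [e] at h4
      have hcop : Nat.Coprime (k - j) ℓ :=
        (Nat.coprime_of_lt_prime (by omega) (by omega) (Fact.out : ℓ.Prime)).symm
      obtain ⟨a, b, hab⟩ := Nat.isCoprime_iff_coprime.2 hcop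
      apply hg'
      have e : g = (g ^ (k - j)) ^ a * (g ^ ℓ) ^ b := by
        rw [← zpow_natCast g, ← zpow_natCast g, ← zpow_mul, ← zpow_mul, ← zpow_add,
          mul_comm (((k - j : ℕ)) : ℤ), mul_comm ((ℓ : ℕ) : ℤ), hab, zpow_one]
      rw [e]
      exact T'.mul_mem (T'.zpow_mem h3 _) (T'.zpow_mem hgl _)
    have huq : ∀ j k : ℕ, j < ℓ → k < ℓ → ∀ x, (g ^ j)⁻¹ * x ∈ T' → (g ^ k)⁻¹ * x ∈ T' → j = k := by
      intro j k hj hk x h1 h2
      rcases lt_trichotomy j k with h | h | h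
      · exact (huq0 j k h hk x h1 h2).elim
      · exact h
      · exact (huq0 k j h hj x h2 h1).elim
    choose! jj hjj1 hjj2 using hcl
    -- the transversals of `P'` in `T'`
    have hSj : ∀ j < ℓ, IsTv P' T' ((S.filter fun x => (g ^ j)⁻¹ * x ∈ T').image
        fun x => (g ^ j)⁻¹ * x) := by
      intro j hj
      constructor
      · intro s hs
        rw [Finset.mem_image] at hs
        obtain ⟨x, hx, rfl⟩ := hs
        exact (Finset.mem_filter.1 hx).2
      · intro p hp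
        obtain ⟨s, ⟨hs1, hs2⟩, hs3⟩ := hS.2 (g ^ j * p) (T.mul_mem (T.pow_mem hg _) (hTT hp))
        have hs4 : (g ^ j)⁻¹ * s ∈ T' := by
          have h1 := hPT hs2
          have e : (g ^ j)⁻¹ * s = p * (s⁻¹ * (g ^ j * p))⁻¹ := by
            rw [mul_inv_rev, mul_inv_rev, inv_inv, mul_comm (p⁻¹ * (g ^ j)⁻¹) s, mul_comm s,
              mul_assoc p⁻¹, mul_inv_cancel_left]
          rw [e]
          exact T'.mul_mem hp (T'.inv_mem h1)
        refine ⟨(g ^ j)⁻¹ * s, ⟨Finset.mem_image_of_mem _ (Finset.mem_filter.2 ⟨hs1, hs4⟩), ?_⟩, ?_⟩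
        · rw [mul_inv_rev, inv_inv, mul_assoc]
          exact hs2
        · rintro y ⟨hy1, hy2⟩
          rw [Finset.mem_image] at hy1
          obtain ⟨x, hx, rfl⟩ := hy1
          rw [mul_inv_rev, inv_inv, mul_assoc] at hy2
          rw [hs3 x ⟨(Finset.mem_filter.1 hx).1, hy2⟩]
    obtain ⟨m', hm'⟩ : ∃ m' : A, m' = ∑ s ∈ ((S.filter fun x => (g ^ 0)⁻¹ * x ∈ T').image
        fun x => (g ^ 0)⁻¹ * x), cw R α s m := ⟨_, rfl⟩
    have hℓ0 : 0 < ℓ := (Fact.out : ℓ.Prime).pos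
    have hmj : ∀ j < ℓ, ∑ s ∈ ((S.filter fun x => (g ^ j)⁻¹ * x ∈ T').image
        fun x => (g ^ j)⁻¹ * x), cw R α s m = m' := by
      intro j hj
      rw [hm']
      exact tv_indep (hSj j hj) (hSj 0 hℓ0) (fun s => cw R α s m) hf
    have hmT : ∀ q ∈ T', α q * m' = m' * α q := by
      rw [← mem_cw (R := R)]
      intro t ht
      have h1 := tv_indep (tv_mul (hSj 0 hℓ0) ht) (hSj 0 hℓ0) (fun s => cw R α s m) hf
      rw [Finset.sum_image (fun a _ b _ h => mul_left_cancel h)] at h1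
      rw [hm', map_sum]
      refine Eq.trans (Finset.sum_congr rfl fun s _ => ?_) h1
      rw [map_mul, Module.End.mul_apply]
    have hzT : ∀ q ∈ T, α q * (∑ x ∈ S, cw R α x m) = (∑ x ∈ S, cw R α x m) * α q := by
      rw [← mem_cw (R := R)]
      intro t ht
      have h1 := tv_indep (tv_mul hS ht) hS (fun s => cw R α s m) hf
      rw [Finset.sum_image (fun a _ b _ h => mul_left_cancel h)] at h1
      rw [map_sum]
      refine Eq.trans (Finset.sum_congr rfl fun s _ => ?_) h1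
      rw [map_mul, Module.End.mul_apply]
    have hzm : ∑ x ∈ S, cw R α x m = ∑ j ∈ Finset.range ℓ, α (g ^ j) * m' * α (g ^ j)⁻¹ := by
      rw [← Finset.sum_fiberwise_of_maps_to (g := jj) (t := Finset.range ℓ)
        (fun x hx => Finset.mem_range.2 (hjj1 x (hS.1 x hx)))]
      refine Finset.sum_congr rfl fun j hj => ?_
      rw [Finset.mem_range] at hj
      have e1 : S.filter (fun x => jj x = j) = S.filter fun x => (g ^ j)⁻¹ * x ∈ T' := by
        refine Finset.filter_congr fun x hx => ?_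
        constructor
        · rintro rfl
          exact hjj2 x (hS.1 x hx)
        · intro h
          exact huq _ _ (hjj1 x (hS.1 x hx)) hj x (hjj2 x (hS.1 x hx)) h
      rw [e1, ← hmj j hj, Finset.sum_image (fun a _ b _ h => mul_left_cancel h)]
      have e2 : ∀ a : A, α (g ^ j) * a * α (g ^ j)⁻¹ = cw R α (g ^ j) a := by
        intro a
        change _ = α (g ^ j) * (a * α (g ^ j)⁻¹)
        rw [mul_assoc]
      rw [e2, map_sum]
      refine Finset.sum_congr rfl fun x _ => ?_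
      rw [← Module.End.mul_apply, ← map_mul, mul_inv_cancel_left]
    obtain ⟨z, hz⟩ : ∃ z, z = ∑ x ∈ S, cw R α x m := ⟨_, rfl⟩
    rw [← hz] at hzT hzm ⊢
    have hz' : ∀ q ∈ T, z * α q = α q * z := fun q hq => (hzT q hq).symm
    have hm'' : ∀ q ∈ T', m' * α q = α q * m' := fun q hq => (hmT q hq).symm
    have halt : ∀ u v, InR R (C.lamK (C.i z * kp C.i α cc v u)) →
        InR R (C.lamK (C.i z * kp C.i α cc u v)) := by
      intro u v h
      rw [a1 v u, mul_neg, map_neg]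
      exact inR_neg h
    have hstep : ∀ v ∈ T, (∀ u ∈ T', InR R (C.lamK (C.i z * kp C.i α cc u v))) →
        InR R (C.lamK (C.i z * kp C.i α cc g v)) → ∀ u ∈ T, InR R (C.lamK (C.i z * kp C.i α cc u v)) := by
      intro v hv h1 h2 u hu
      obtain ⟨y, hy, n, rfl⟩ := hgen u hu
      clear hu
      induction n with
      | zero =>
        rw [pow_zero, mul_one]
        exact h1 y hy
      | succ n ih =>
        have h3 := a3 z (y * g ^ n) g v (hz' _ (T.mul_mem (hTT hy) (T.pow_mem hg _))) (hz' _ hg)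
          (hz' _ hv)
        rw [mul_assoc y, ← pow_succ] at h3
        have h4 := inR_add h3 (inR_add ih h2)
        have e : C.lamK (C.i z * kp C.i α cc (y * g ^ (n + 1)) v) =
            C.lamK (C.i z * kp C.i α cc (y * g ^ (n + 1)) v) -
              C.lamK (C.i z * kp C.i α cc (y * g ^ n) v) - C.lamK (C.i z * kp C.i α cc g v) +
            (C.lamK (C.i z * kp C.i α cc (y * g ^ n) v) + C.lamK (C.i z * kp C.i α cc g v)) := by
          ring
        rw [e]
        exact h4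
    have hA : ∀ u ∈ T', ∀ v ∈ T', InR R (C.lamK (C.i z * kp C.i α cc u v)) := by
      intro u hu v hv
      rw [hzm, map_sum, Finset.sum_mul, map_sum]
      have e : ∑ j ∈ Finset.range ℓ, C.lamK (C.i (α (g ^ j) * m' * α (g ^ j)⁻¹) *
          kp C.i α cc u v) = ∑ j ∈ Finset.range ℓ, (C.lamK (C.i (α (g ^ j) * m' * α (g ^ j)⁻¹) *
          kp C.i α cc u v) - C.lamK (C.i m' * kp C.i α cc u v)) +
          (ℓ : K) * C.lamK (C.i m' * kp C.i α cc u v) := by
        rw [Finset.sum_sub_distrib, Finset.sum_const, Finset.card_range, nsmul_eq_mul,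
          sub_add_cancel]
      rw [e]
      exact inR_add (inR_sum _ _ fun j _ => b2 m' u v (g ^ j) (hm'' u hu) (hm'' v hv))
        (a4 m' ℓ u v (hm'' u hu) (hm'' v hv) (hW u))
    have hB : ∀ u ∈ T', InR R (C.lamK (C.i z * kp C.i α cc u g)) := by
      intro u hu
      rw [hzm]
      exact hn m' ℓ u g (hm'' u hu) (hm'' _ hgl) (hW g)
    have hC : ∀ v ∈ T', ∀ u ∈ T, InR R (C.lamK (C.i z * kp C.i α cc u v)) := fun v hv =>
      hstep v (hTT hv) (fun u hu => hA u hu v hv) (halt _ _ (hB v hv))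
    have hD : ∀ u ∈ T, InR R (C.lamK (C.i z * kp C.i α cc u g)) := by
      refine hstep g hg hB ?_
      have e : kp C.i α cc g g = 0 := by
        unfold kp
        rw [sub_self, zero_mul]
      rw [e, mul_zero, map_zero]
      exact inR_zero
    intro u hu v hv
    exact halt _ _ (hstep u hu (fun w hw => halt _ _ (hC w hw u hu)) (halt _ _ (hD u hu)) v hv)

end Pool.Agent.PST.H13
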