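import Pool.Agent.PST.StmtsK2

/-!
# Row PAI of squad PST: the pairing of a vertex
-/

set_option autoImplicit false

open scoped BigOperators

noncomputable section

namespace Pool.Agent.PST.H13

open Pool.Agent.PSS
open Finset

theorem wb_zero {V B : Type} [Group V] [Ring B] {β : V →* B} {W : Subgroup V} {q : B → B → B}
    (h1 : ∀ w ∈ W, ∀ x y, q (β w * x) y = β w * q x y ∧ q (x * β w) y = q x (β w * y) ∧
      q x (y * β w) = q x y * β w) (h2 : Nrm q) : ∀ w ∈ W, ∀ x, q (β w) x = 0 ∧ q x (β w) = 0 := by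
  intro w hw x
  constructor
  · have h := (h1 w hw 1 x).1
    rwa [mul_one, h2.1, mul_zero] at h
  · have h := (h1 w hw x 1).2.2
    rwa [one_mul, h2.2, zero_mul] at h

theorem bad_lin {K B : Type} [Field K] [Ring B] [Algebra K B] (c : B →ₗ[K] B →ₗ[K] B) :
    Bad (fun a b => c a b) :=
  ⟨fun x y z => by rw [map_add, LinearMap.add_apply], fun x y z => map_add _ _ _⟩

theorem pai (hEcr : EcrStmt) (hNrk : NrkStmt) (hRel : RelStmt) (hXcm : XcmStmt)
    (hXpr : XprStmt) : PaiStmt := by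
  intro R K V A B κ Ω _ _ _ _ _ _ _ _ _ _ _ _ _ _ W α lam x y b c C m₁ cc ℓ r hℓ hrW hmW hmN hmI
    hmd hZ hBi
  obtain ⟨β, hβ⟩ : ∃ β : V →* B, β = ia C.i α := ⟨_, rfl⟩
  have hβa : ∀ v, C.i (α v) = β v := fun v => by rw [hβ]; rfl
  have hccW : ∀ w ∈ W, ∀ x, cc (β w) x = 0 ∧ cc x (β w) = 0 := by
    intro w hw x
    rw [hβ]
    exact wb_zero (q := fun a b => cc a b) hZ.rel hZ.nrm w hw x
  have hmzW : ∀ w ∈ W, ∀ x, m₁ (β w) x = 0 ∧ m₁ x (β w) = 0 := by
    intro w hw x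
    rw [hβ]
    exact wb_zero (q := fun a b => m₁ a b) hmW hmN w hw x
  obtain ⟨X, _, p, j, s, hX⟩ := hEcr A B (C.i : A →+* B) (fun a b => cc a b) (bad_lin cc) hZ.nrm
    hZ.cyc
  obtain ⟨k, hk1, hk2, hk3⟩ := hNrk R K V A B κ Ω X W α lam x y b c C cc p j s ℓ r hℓ hrW hZ hX
  have hapow : ∀ n : ℕ, α r ^ n = α (r ^ n) := fun n => (map_pow α r n).symm
  have hbpow : ∀ n : ℕ, β r ^ n = β (r ^ n) := fun n => (map_pow β r n).symm
  have hai : α r⁻¹ ^ ℓ = α (r ^ ℓ)⁻¹ := by rw [← map_pow, inv_pow]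
  have hinv : ∀ v : V, β v * β v⁻¹ = 1 := fun v => by rw [← map_mul, mul_inv_cancel, map_one]
  have hinv' : ∀ v : V, β v⁻¹ * β v = 1 := fun v => by rw [← map_mul, inv_mul_cancel, map_one]
  have hcomm : ∀ u v : V, β u * β v = β v * β u := fun u v => by
    rw [← map_mul, ← map_mul, mul_comm]
  have sym : ∀ s t, C.lamK (s * t) = C.lamK (t * s) := C.rfK.sym
  have lamI : ∀ a : A, In (algebraMap R K) (C.lamK (C.i a)) := fun a => ⟨lam a, (C.lk a).symm⟩
  have inj_inv : ∀ a : A, ∀ v : V, a * α v = α v * a → C.i a * β v = β v * C.i a := by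
    intro a v h
    have := congrArg C.i h
    rwa [map_mul, map_mul, hβa] at this
  have comm_inv : ∀ (t : B) (v : V), t * β v = β v * t → t * β v⁻¹ = β v⁻¹ * t := by
    intro t v h
    calc t * β v⁻¹ = β v⁻¹ * β v * t * β v⁻¹ := by rw [hinv', one_mul]
      _ = β v⁻¹ * (β v * t) * β v⁻¹ := by simp only [mul_assoc]
      _ = β v⁻¹ * (t * β v) * β v⁻¹ := by rw [h]
      _ = β v⁻¹ * t * (β v * β v⁻¹) := by simp only [mul_assoc]
      _ = β v⁻¹ * t := by rw [hinv, mul_one]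
  -- the commutator
  obtain ⟨xc, hxc⟩ : ∃ xc : A → B, ∀ a, xcm C.i (fun a b => cc a b) (α r) k a = xc a :=
    ⟨_, fun _ => rfl⟩
  have hxd : ∀ a, xc a = cc (C.i a) (β r) - cc (β r) (C.i a) + (C.i a * k - k * C.i a) := by
    intro a
    rw [← hxc, ← hβa]
    rfl
  have hpar : ∀ y' a, par C cc r k y' a = C.lamK (C.i y' * xc a * β r⁻¹) := by
    intro y' a
    rw [← hxc, ← hβa]
    rfl
  -- (L1)
  have L1 : ∀ (y' : A) (h : B), y' * α r = α r * y' →
      C.lamK (C.i y' * (h * β r - β r * h) * β r⁻¹) = 0 := by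
    intro y' h hy
    have e1 : C.i y' * (h * β r - β r * h) * β r⁻¹ = C.i y' * h - β r * (C.i y' * h) * β r⁻¹ := by
      rw [mul_sub, sub_mul]
      have f1 : C.i y' * (h * β r) * β r⁻¹ = C.i y' * h := by
        rw [mul_assoc, mul_assoc h, hinv, mul_one]
      have f2 : C.i y' * (β r * h) * β r⁻¹ = β r * (C.i y' * h) * β r⁻¹ := by
        rw [← mul_assoc, inj_inv y' r hy, mul_assoc (β r)]
      rw [f1, f2]
    rw [e1, map_sub, sym (β r * (C.i y' * h)), ← mul_assoc, hinv', one_mul, sub_self]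
  -- XPR
  have hX1 := hXpr A B X (C.i : A →+* B) (fun a b => cc a b) p j s ℓ (α r) (α r⁻¹) (α (r ^ ℓ)) k hℓ hX
    (by rw [← map_mul, mul_inv_cancel, map_one]) (by rw [← map_mul, inv_mul_cancel, map_one])
    (hapow ℓ) hk3
    (fun x => by
      have := hccW _ hrW x
      rw [← hβa] at this
      exact this)
    (fun x => by
      have := hccW _ (W.inv_mem hrW) x
      rw [← hβa, ← hai] at this
      exact this)
  have P1 : ∀ a, a * α r = α r * a →
      In C.i (∑ t ∈ range ℓ, β (r ^ t) * (xc a * β r⁻¹) * β (r ^ t)⁻¹) := by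
    intro a ha
    obtain ⟨a1, ha1⟩ := hX1.1 a ha
    refine ⟨a1 * α (r ^ ℓ)⁻¹, ?_⟩
    have ha2 : C.i a1 = ∑ t ∈ range ℓ, β r ^ t * xc a * β r ^ (ℓ - 1 - t) := by
      rw [← hβa, ← hxc]
      exact ha1
    rw [map_mul, ha2, hβa, Finset.sum_mul]
    refine Finset.sum_congr rfl fun t ht => ?_
    rw [Finset.mem_range] at ht
    rw [hbpow, hbpow]
    have e1 : β (r ^ (ℓ - 1 - t)) * β (r ^ ℓ)⁻¹ = β r⁻¹ * β (r ^ t)⁻¹ := by
      rw [← map_mul, ← map_mul]
      congr 1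
      have e2 : r ^ ℓ = r ^ (ℓ - 1 - t) * (r ^ t * r) := by
        rw [← pow_succ, ← pow_add]
        congr 1
        omega
      rw [e2, mul_inv_rev, mul_comm (r ^ t * r)⁻¹, mul_inv_cancel_left, mul_inv_rev]
    rw [mul_assoc, e1]
    simp only [mul_assoc]
  have P2 : ∀ m : A, m * α (r ^ ℓ) = α (r ^ ℓ) * m → ∃ (h : B) (a1 : A),
      xc (∑ t ∈ range ℓ, α (r ^ t) * m * α (r ^ t)⁻¹) = C.i a1 - (h * β r - β r * h) := by
    intro m hm
    obtain ⟨h, a1, ha1⟩ := hX1.2 m hm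
    refine ⟨h, a1, ?_⟩
    have e1 : ∑ t ∈ range ℓ, α r ^ t * m * α r⁻¹ ^ t = ∑ t ∈ range ℓ, α (r ^ t) * m * α (r ^ t)⁻¹ := by
      refine Finset.sum_congr rfl fun t _ => ?_
      rw [hapow, ← map_pow, inv_pow]
    rw [e1] at ha1
    have ha2 : C.i a1 = xc (∑ t ∈ range ℓ, α (r ^ t) * m * α (r ^ t)⁻¹) + (h * β r - β r * h) := by
      rw [← hβa, ← hxc]
      exact ha1
    rw [ha2, add_sub_cancel_right]
  obtain ⟨_, hX2, hX3⟩ := hXcm A B X (C.i : A →+* B) (fun a b => cc a b) p j s (α r) k hX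
  refine ⟨k, ?_, ?_, ?_, ?_, ?_, ?_, ?_⟩
  · -- (a)
    intro y' a hy ha
    obtain ⟨n, hn⟩ := P1 a ha
    have e1 : C.lamK (C.i (y' * n)) = (ℓ : K) * par C cc r k y' a := by
      rw [map_mul, hn, Finset.mul_sum, map_sum, hpar]
      have e2 : ∀ t ∈ range ℓ, C.lamK (C.i y' * (β (r ^ t) * (xc a * β r⁻¹) * β (r ^ t)⁻¹)) =
          C.lamK (C.i y' * xc a * β r⁻¹) := by
        intro t _
        have e3 : C.i y' * β (r ^ t) = β (r ^ t) * C.i y' := by
          rw [map_pow]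
          exact (Commute.pow_right (inj_inv y' r hy) t).eq
        have e4 : C.i y' * (β (r ^ t) * (xc a * β r⁻¹) * β (r ^ t)⁻¹) =
            β (r ^ t) * (C.i y' * xc a * β r⁻¹) * β (r ^ t)⁻¹ := by
          rw [← mul_assoc, ← mul_assoc, e3]
          simp only [mul_assoc]
        rw [e4, sym (β (r ^ t) * _), ← mul_assoc, hinv', one_mul]
      rw [Finset.sum_congr rfl e2, Finset.sum_const, Finset.card_range, nsmul_eq_mul]
    rw [← e1]
    exact lamI _
  · -- (b)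
    intro y' m hy hm
    obtain ⟨h, a1, ha1⟩ := P2 m hm
    rw [hpar, ha1, mul_sub, sub_mul, map_sub, L1 y' h hy, sub_zero, ← hβa, ← map_mul, ← map_mul]
    exact lamI _
  · -- (c)
    intro m a ha hm
    obtain ⟨n, hn⟩ := P1 a ha
    have e0 : ∑ t ∈ range ℓ, β (r ^ t)⁻¹ * (xc a * β r⁻¹) * β (r ^ t) =
        C.i (α (r ^ (ℓ - 1))⁻¹ * n * α (r ^ (ℓ - 1))) := by
      rw [map_mul, map_mul, hn, hβa, hβa, Finset.mul_sum, Finset.sum_mul]
      rw [← Finset.sum_range_reflect (fun t => β (r ^ t)⁻¹ * (xc a * β r⁻¹) * β (r ^ t)) ℓ]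
      refine Finset.sum_congr rfl fun t ht => ?_
      rw [Finset.mem_range] at ht
      have e2 : r ^ (ℓ - 1) = r ^ (ℓ - 1 - t) * r ^ t := by
        rw [← pow_add]
        congr 1
        omega
      have e3 : β (r ^ (ℓ - 1))⁻¹ * β (r ^ t) = β (r ^ (ℓ - 1 - t))⁻¹ := by
        rw [← map_mul, e2, mul_inv_rev, mul_comm (r ^ t)⁻¹, inv_mul_cancel_right]
      have e4 : β (r ^ t)⁻¹ * β (r ^ (ℓ - 1)) = β (r ^ (ℓ - 1 - t)) := by
        rw [← map_mul, e2, mul_comm (r ^ (ℓ - 1 - t)), inv_mul_cancel_left]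
      calc β (r ^ (ℓ - 1 - t))⁻¹ * (xc a * β r⁻¹) * β (r ^ (ℓ - 1 - t)) =
          β (r ^ (ℓ - 1))⁻¹ * β (r ^ t) * (xc a * β r⁻¹) * (β (r ^ t)⁻¹ * β (r ^ (ℓ - 1))) := by
            rw [e3, e4]
        _ = β (r ^ (ℓ - 1))⁻¹ * (β (r ^ t) * (xc a * β r⁻¹) * β (r ^ t)⁻¹) * β (r ^ (ℓ - 1)) := by
            simp only [mul_assoc]
    have e1 : par C cc r k (∑ t ∈ range ℓ, α (r ^ t) * m * α (r ^ t)⁻¹) a =
        C.lamK (C.i (m * (α (r ^ (ℓ - 1))⁻¹ * n * α (r ^ (ℓ - 1))))) := by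
      rw [map_mul C.i m, ← e0, hpar, map_sum, Finset.sum_mul, Finset.sum_mul, map_sum,
        Finset.mul_sum, map_sum]
      refine Finset.sum_congr rfl fun t _ => ?_
      rw [map_mul C.i, map_mul C.i, hβa, hβa]
      have e2 : β (r ^ t) * C.i m * β (r ^ t)⁻¹ * xc a * β r⁻¹ =
          β (r ^ t) * (C.i m * (β (r ^ t)⁻¹ * (xc a * β r⁻¹))) := by
        simp only [mul_assoc]
      rw [e2, sym]
      simp only [mul_assoc]
    rw [e1]
    exact lamI _
  · -- (d)
    intro y' a a' hy ha ha'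
    obtain ⟨n, hn⟩ := hX2 a a' ha ha'
    have hn2 : C.i n = xc (a * a') - (xc a * C.i a' + C.i a * xc a') +
        (cc (C.i a) (C.i a') * β r - β r * cc (C.i a) (C.i a')) := by
      rw [← hβa, ← hxc, ← hxc, ← hxc]
      exact hn
    have hn3 : xc (a * a') - (xc a * C.i a' + C.i a * xc a') =
        C.i n - (cc (C.i a) (C.i a') * β r - β r * cc (C.i a) (C.i a')) := by
      rw [hn2, add_sub_cancel_right]
    have e1 : par C cc r k (a' * y') a = C.lamK (C.i y' * (xc a * C.i a') * β r⁻¹) := by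
      rw [hpar, map_mul C.i, mul_assoc (C.i a'), mul_assoc (C.i a'), sym, mul_assoc (C.i y' * xc a),
        ← comm_inv _ _ (inj_inv a' r ha')]
      simp only [mul_assoc]
    have e2 : par C cc r k (y' * a) a' = C.lamK (C.i y' * (C.i a * xc a') * β r⁻¹) := by
      rw [hpar, map_mul C.i]
      simp only [mul_assoc]
    have e3 : par C cc r k y' (a * a') - par C cc r k (a' * y') a - par C cc r k (y' * a) a' =
        C.lamK (C.i y' * (xc (a * a') - (xc a * C.i a' + C.i a * xc a')) * β r⁻¹) := by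
      rw [e1, e2, hpar, mul_sub, mul_add, sub_mul, add_mul, map_sub, map_add]
      ring
    rw [e3, hn3, mul_sub, sub_mul, map_sub, L1 y' _ hy, sub_zero, ← hβa, ← map_mul, ← map_mul]
    exact lamI _
  · -- (e)
    intro w hw y'
    have e1 : xc (α w) = 0 := by
      rw [hxd, hβa, (hccW w hw _).1, (hccW w hw _).2, ← hβa, hk1 w hw]
      simp
    rw [hpar, e1, mul_zero, zero_mul, map_zero]
  · -- (f)
    intro g y' hy
    have hyg : C.i y' * β g = β g * C.i y' := inj_inv y' g hy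
    rw [hpar, hxd, map_mul C.i, hβa, hβa, hβa, hβa]
    have e0 : β (g * r)⁻¹ = β r⁻¹ * β g⁻¹ := by rw [← map_mul, mul_inv_rev]
    have e1 : C.lamK (β g⁻¹ * C.i y' * (cc (β g) (β r) - cc (β r) (β g)) * β r⁻¹) =
        C.lamK (C.i y' * (cc (β g) (β r) - cc (β r) (β g)) * β (g * r)⁻¹) := by
      rw [mul_assoc (β g⁻¹), mul_assoc (β g⁻¹), sym, e0]
      simp only [mul_assoc]
    have e2 : C.lamK (β g⁻¹ * C.i y' * (β g * k - k * β g) * β r⁻¹) = 0 := by
      rw [mul_sub, sub_mul, map_sub]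
      have f1 : β g⁻¹ * C.i y' * (β g * k) * β r⁻¹ = C.i y' * k * β r⁻¹ := by
        rw [← comm_inv _ _ hyg, mul_assoc (C.i y'), ← mul_assoc (β g⁻¹), hinv', one_mul]
      have f2 : C.lamK (β g⁻¹ * C.i y' * (k * β g) * β r⁻¹) = C.lamK (C.i y' * k * β r⁻¹) := by
        have f3 : β g⁻¹ * C.i y' * (k * β g) * β r⁻¹ = β g⁻¹ * (C.i y' * k * (β g * β r⁻¹)) := by
          simp only [mul_assoc]
        have f4 : C.i y' * k * (β g * β r⁻¹) * β g⁻¹ = C.i y' * k * β r⁻¹ := by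
          rw [hcomm g r⁻¹, mul_assoc, mul_assoc (β r⁻¹), hinv, mul_one]
        rw [f3, sym, f4]
      rw [f1, f2, sub_self]
    rw [mul_add, add_mul, map_add, e1, e2, add_zero]
  · -- (g)
    intro e he
    obtain ⟨c', hc1, hc2, hc3⟩ := hBi
    have hczW : ∀ w ∈ W, ∀ x, c' (β w) x = 0 ∧ c' x (β w) = 0 := by
      intro w hw x
      rw [hβ]
      exact wb_zero (q := fun a b => c' a b) hc1 hc2 w hw x
    have hbd : Bad (fun a b => -(c' a b)) :=
      ⟨fun x y z => by rw [map_add, LinearMap.add_apply, neg_add],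
        fun x y z => by rw [map_add, neg_add]⟩
    have hnd : Nrm (fun a b => -(c' a b)) :=
      ⟨fun x => by
        have := hc2.1 x
        simp only at this
        simp only [this, neg_zero], fun x => by
        have := hc2.2 x
        simp only at this
        simp only [this, neg_zero]⟩
    have he' : C.i (e * α (r ^ ℓ)) =
        ∑ t ∈ range ℓ, m₁ (C.i (α r) ^ t) (C.i (α r)) * C.i (α r) ^ (ℓ - 1 - t) := by
      rw [map_mul, he, Finset.sum_mul]
      refine Finset.sum_congr rfl fun t ht => ?_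
      rw [Finset.mem_range] at ht
      have e1 : ∀ n, C.i (α r) ^ n = C.i (α (r ^ n)) := fun n => by rw [← map_pow, hapow]
      rw [e1, e1, mul_assoc, ← map_mul, ← map_mul]
      congr 3
      have e2 : r ^ ℓ = r ^ (ℓ - 1 - t) * r ^ (t + 1) := by
        rw [← pow_add]
        congr 1
        omega
      rw [e2, mul_comm (r ^ (ℓ - 1 - t)), inv_mul_cancel_left]
    obtain ⟨f, hf⟩ := hRel A B X (C.i : A →+* B) (fun a b => m₁ a b) (fun a b => cc a b)
      (fun a b => -(c' a b)) p j s ℓ (α r) (α (r ^ ℓ)) (e * α (r ^ ℓ)) k C.inj (bad_lin m₁)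
      (bad_lin cc) hbd hmN hZ.nrm hnd hmI hmd hZ.cyc (fun a₁ a₂ a₃ => by
        have h1 := hc3 a₁ a₂ a₃
        have e1 : dl (fun a b => -(c' a b)) (C.i a₁) (C.i a₂) (C.i a₃) =
            -dl (fun a b => c' a b) (C.i a₁) (C.i a₂) (C.i a₃) := by
          unfold dl
          simp only [mul_neg, neg_mul]
          abel
        have e2 : brk (fun a b => m₁ a b) (fun a b => cc a b) (C.i a₁) (C.i a₂) (C.i a₃) -
            dl (fun a b => -(c' a b)) (C.i a₁) (C.i a₂) (C.i a₃) =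
            brk (fun a b => m₁ a b) (fun a b => cc a b) (C.i a₁) (C.i a₂) (C.i a₃) +
            dl (fun a b => c' a b) (C.i a₁) (C.i a₂) (C.i a₃) := by
          rw [e1, sub_neg_eq_add]
        rw [← e2] at h1
        exact h1) hX (hapow ℓ)
      (fun x => by
        have h1 := hmzW _ hrW x
        have h2 := hccW _ hrW x
        have h3 := hczW _ hrW x
        rw [← hβa] at h1 h2 h3
        exact ⟨h1.1, h1.2, h2.1, h2.2, by
          change -(c' (C.i (α (r ^ ℓ))) x) = 0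
          rw [h3.1, neg_zero], by
          change -(c' x (C.i (α (r ^ ℓ)))) = 0
          rw [h3.2, neg_zero]⟩)
      (hk1 _ hrW) hk3 he'
    obtain ⟨h4, a1, h5⟩ := hX3 _ _ hf
    have h5' : C.i a1 = xc (e * α (r ^ ℓ)) + (f * β r - β r * f) := by
      rw [← hβa, ← hxc]
      exact h5
    constructor
    · have h6 : e * α r * α (r ^ ℓ) = α r * e * α (r ^ ℓ) := by
        rw [mul_assoc, ← map_mul α r, mul_comm r, map_mul, ← mul_assoc, h4, mul_assoc]
      have h7 := congrArg (fun z => z * α (r ^ ℓ)⁻¹) h6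
      simp only [mul_assoc] at h7
      rw [← map_mul, mul_inv_cancel, map_one, mul_one, mul_one] at h7
      exact h7
    · intro y' hy
      have h6 : xc (e * α (r ^ ℓ)) = C.i a1 - (f * β r - β r * f) := by
        rw [h5', add_sub_cancel_right]
      rw [hpar, h6, mul_sub, sub_mul, map_sub, L1 y' _ hy, sub_zero, ← hβa, ← map_mul, ← map_mul]
      exact lamI _

end Pool.Agent.PST.H13
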