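import Pool.Agent.PST.StmtsET2

/-!
# Row PWS of squad PST: the powers of the `σ v`
-/

set_option autoImplicit false

open scoped BigOperators

noncomputable section

namespace Pool.Agent.PST.H13

open Pool.Agent.PFD.D2 (Cdv FibG)
open Pool.Agent.PST.ET

theorem pws (hRli : ET.RliStmt) : ET.PwsStmt := by
  intro ℓ r _ R F V H Hs _ _ _ _ _ _ _ _ _ _ _ c f α lam' lam xx t σ hV hG hP hσ1 hσ hcl
  obtain ⟨_, _, hpure⟩ := hRli R F V H Hs c f α lam' σ hP hσ
  have hqs : ∀ (k : R) (x : Hs), f.q (k • x) = c.κ k • f.q x := by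
    intro k x
    rw [Algebra.smul_def, map_mul, f.sc, ← Algebra.smul_def]
  have hκπ : c.κ c.π = 0 := (c.ker c.π).2 ⟨1, (mul_one _).symm⟩
  have hqπ : ∀ x : Hs, f.q (c.π • x) = 0 := fun x => by rw [hqs, hκπ, zero_smul]
  have hαc : ∀ u v, α u * α v = α v * α u := fun u v => by rw [← map_mul, ← map_mul, mul_comm]
  -- IV
  have hIV : ∀ (u : V) (b : H), α u * b - b * α u ∈ IV F α := fun u b =>
    Submodule.subset_span ⟨u, b, rfl⟩
  have hIVr : ∀ (v : V) (x : H), x ∈ IV F α → x * α v ∈ IV F α := by
    intro v x hx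
    unfold IV at hx
    induction hx using Submodule.span_induction with
    | mem x hx =>
      obtain ⟨u, b, rfl⟩ := hx
      have e : (α u * b - b * α u) * α v = α u * (b * α v) - b * α v * α u := by
        rw [sub_mul, mul_assoc, mul_assoc b, hαc u v, mul_assoc b]
      rw [e]
      exact hIV _ _
    | zero =>
      rw [zero_mul]
      exact Submodule.zero_mem _
    | add x y _ _ hx hy =>
      rw [add_mul]
      exact Submodule.add_mem _ hx hy
    | smul k x _ hx =>
      rw [smul_mul_assoc]
      exact Submodule.smul_mem _ _ hx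
  have hlam0 : ∀ (w : V) (x : H), x ∈ IV F α → lam' (α w⁻¹ * x) = 0 := by
    intro w x hx
    unfold IV at hx
    induction hx using Submodule.span_induction with
    | mem x hx =>
      obtain ⟨u, b, rfl⟩ := hx
      have e : lam' (α w⁻¹ * (b * α u)) = lam' (α w⁻¹ * (α u * b)) := by
        rw [← mul_assoc, ← hP.inv, ← mul_assoc, ← mul_assoc, hαc]
      rw [mul_sub, map_sub, e, sub_self]
    | zero => rw [mul_zero, map_zero]
    | add x y _ _ hx hy => rw [mul_add, map_add, hx, hy, add_zero]
    | smul k x _ hx => rw [mul_smul_comm, map_smul, hx, smul_zero]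
  have hzero : ∀ k : V → F, ∑ u, k u • α u ∈ IV F α → ∀ u, k u = 0 := by
    intro k hk w
    have h1 := hlam0 w _ hk
    rw [Finset.mul_sum, map_sum] at h1
    have h2 : ∀ u, lam' (α w⁻¹ * (k u • α u)) = if u = w then k u else 0 := by
      intro u
      rw [mul_smul_comm, map_smul, ← map_mul, hP.del, smul_eq_mul]
      by_cases h : u = w
      · rw [if_pos h, if_pos (by rw [h, inv_mul_cancel]), mul_one]
      · rw [if_neg h, if_neg (fun h' => h (inv_mul_eq_one.1 h').symm), mul_zero]
    simp only [h2] at h1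
    rwa [Finset.sum_ite_eq' Finset.univ w k, if_pos (Finset.mem_univ _)] at h1
  -- the span
  have hqN : ∀ g ∈ Submodule.span R (Set.range σ), ∃ k : V → F, f.q g = ∑ u, k u • α u := by
    intro g hg
    obtain ⟨k, hk⟩ := (Submodule.mem_span_range_iff_exists_fun R).1 hg
    refine ⟨fun u => c.κ (k u), ?_⟩
    rw [← hk, map_sum]
    exact Finset.sum_congr rfl fun u _ => by rw [hqs, hσ]
  have hσN : ∀ v, σ v ∈ Submodule.span R (Set.range σ) := fun v =>
    Submodule.subset_span ⟨v, rfl⟩
  have hNmul : ∀ x ∈ Submodule.span R (Set.range σ), ∀ y ∈ Submodule.span R (Set.range σ),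
      x * y ∈ Submodule.span R (Set.range σ) := by
    intro x hx y hy
    obtain ⟨k, hk⟩ := (Submodule.mem_span_range_iff_exists_fun R).1 hx
    obtain ⟨k', hk'⟩ := (Submodule.mem_span_range_iff_exists_fun R).1 hy
    rw [← hk, ← hk', Finset.sum_mul]
    refine Submodule.sum_mem _ fun u _ => ?_
    rw [Finset.mul_sum]
    refine Submodule.sum_mem _ fun v _ => ?_
    rw [smul_mul_smul_comm]
    exact Submodule.smul_mem _ _ (hcl u v)
  have hNone : (1 : Hs) ∈ Submodule.span R (Set.range σ) := by
    rw [← hσ1]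
    exact hσN 1
  have hNpow : ∀ v (n : ℕ), σ v ^ n ∈ Submodule.span R (Set.range σ) := by
    intro v n
    induction n with
    | zero => rw [pow_zero]; exact hNone
    | succ n ih => rw [pow_succ]; exact hNmul _ ih _ (hσN v)
  constructor
  · intro v
    obtain ⟨w, G, hw, hwl, hG1⟩ := hG.pw v
    obtain ⟨s, hs⟩ := f.ker (w - σ v) (by rw [map_sub, hw, hσ, sub_self])
    have hws : w = σ v + c.π • s := by rw [← hs]; abel
    have hexp : ∀ n : ℕ, ∃ S e : Hs, w ^ n = σ v ^ n + c.π • S + c.π ^ 2 • e ∧
        f.q S * α v - n • (f.q s * α v ^ n) ∈ IV F α := by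
      intro n
      induction n with
      | zero =>
        refine ⟨0, 0, by simp, ?_⟩
        simp
      | succ n ih =>
        obtain ⟨S, e, h1, h2⟩ := ih
        refine ⟨S * σ v + σ v ^ n * s, e * σ v + S * s + c.π • (e * s), ?_, ?_⟩
        · rw [pow_succ w, h1, hws, pow_succ (σ v)]
          simp only [mul_add, add_mul, smul_mul_assoc, mul_smul_comm, smul_add, smul_smul]
          have e1 : c.π * c.π = c.π ^ 2 := (sq _).symm
          have e2 : c.π ^ 2 * c.π = c.π * c.π ^ 2 := mul_comm _ _
          rw [e1]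
          have e3 : (c.π * c.π ^ 2) • (e * s) = (c.π ^ 2 * c.π) • (e * s) := by rw [e2]
          rw [e3]
          abel
        · rw [map_add, map_mul, map_mul, map_pow, hσ, add_mul]
          have h3 := hIVr v _ h2
          have h4 := hIV (v ^ n) (f.q s * α v)
          rw [map_pow] at h4
          have h5 := Submodule.add_mem _ h3 h4
          have e1 : (f.q S * α v - n • (f.q s * α v ^ n)) * α v +
              (α v ^ n * (f.q s * α v) - f.q s * α v * α v ^ n) =
              f.q S * α v * α v + α v ^ n * f.q s * α v - (n + 1) • (f.q s * α v ^ (n + 1)) := by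
            rw [sub_mul, smul_mul_assoc, mul_assoc (f.q s) (α v ^ n) (α v), ← pow_succ,
              mul_assoc (f.q s) (α v) (α v ^ n), ← pow_succ', ← mul_assoc (α v ^ n), add_smul,
              one_smul]
            abel
          rw [e1] at h5
          exact h5
    obtain ⟨S, e, h1, h2⟩ := hexp ℓ
    have hS : f.q S ∈ IV F α := by
      have h3 : f.q S * α v ∈ IV F α := by
        have e1 : ℓ • (f.q s * α v ^ ℓ) = 0 := by
          rw [← Nat.cast_smul_eq_nsmul F, CharP.cast_eq_zero F ℓ, zero_smul]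
        rwa [e1, sub_zero] at h2
      have h4 := hIVr v⁻¹ _ h3
      rwa [mul_assoc, ← map_mul, mul_inv_cancel, map_one, mul_one] at h4
    have hg : σ v ^ ℓ = 1 + c.π • (G - S - c.π • e) := by
      have e1 : σ v ^ ℓ = w ^ ℓ - c.π • S - c.π ^ 2 • e := by rw [h1]; abel
      rw [e1, hwl, smul_sub, smul_sub, smul_smul, ← sq]
      abel
    have hgN : G - S - c.π • e ∈ Submodule.span R (Set.range σ) := by
      apply hpure
      have e1 : c.π • (G - S - c.π • e) = σ v ^ ℓ - 1 := by rw [hg]; abel
      rw [e1]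
      exact Submodule.sub_mem _ (hNpow v ℓ) hNone
    refine ⟨_, hgN, hg, ?_⟩
    obtain ⟨k, hk⟩ := hqN _ hgN
    have h3 : ∑ u, (k u - gv lam xx t v u) • α u ∈ IV F α := by
      have e1 : ∑ u, (k u - gv lam xx t v u) • α u =
          (f.q G - ∑ u, gv lam xx t v u • α u) - f.q S := by
        simp only [sub_smul]
        rw [Finset.sum_sub_distrib, ← hk, map_sub, map_sub, hqπ]
        abel
      rw [e1]
      exact Submodule.sub_mem _ hG1 hS
    rw [hk]
    exact Finset.sum_congr rfl fun u _ => by rw [sub_eq_zero.1 (hzero _ h3 u)]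
  · intro u v
    obtain ⟨a, b, d, ha, hb, hab, hd⟩ := hG.cm u v
    obtain ⟨s, hs⟩ := f.ker (a - σ u) (by rw [map_sub, ha, hσ, sub_self])
    obtain ⟨t', ht⟩ := f.ker (b - σ v) (by rw [map_sub, hb, hσ, sub_self])
    have has : a = σ u + c.π • s := by rw [← hs]; abel
    have hbt : b = σ v + c.π • t' := by rw [← ht]; abel
    have h1 : σ u * σ v - σ v * σ u = c.π • (d - (σ u * t' - t' * σ u) - (s * σ v - σ v * s) -
        c.π • (s * t' - t' * s)) := by
      have e1 : c.π • d = (σ u + c.π • s) * (σ v + c.π • t') -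
          (σ v + c.π • t') * (σ u + c.π • s) := by rw [← has, ← hbt, hab]
      rw [smul_sub, smul_sub, smul_sub, e1]
      simp only [mul_add, add_mul, smul_mul_assoc, mul_smul_comm, smul_sub, smul_add]
      abel
    obtain ⟨D, hD⟩ : ∃ D, D = d - (σ u * t' - t' * σ u) - (s * σ v - σ v * s) -
        c.π • (s * t' - t' * s) := ⟨_, rfl⟩
    rw [← hD] at h1
    have hDN : D ∈ Submodule.span R (Set.range σ) := by
      apply hpure
      rw [← h1]
      exact Submodule.sub_mem _ (hcl u v) (hcl v u)
    have hDI : f.q D ∈ IV F α := by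
      rw [hD, map_sub, map_sub, map_sub, hqπ, sub_zero, map_sub, map_sub, map_mul, map_mul,
        map_mul, map_mul, hσ, hσ]
      refine Submodule.sub_mem _ (Submodule.sub_mem _ hd (hIV _ _)) ?_
      have := Submodule.neg_mem _ (hIV v (f.q s))
      rwa [neg_sub] at this
    obtain ⟨k, hk⟩ := hqN _ hDN
    have hD0 : f.q D = 0 := by
      rw [hk] at hDI ⊢
      exact Finset.sum_eq_zero fun u _ => by rw [hzero k hDI u, zero_smul]
    obtain ⟨D', hD'⟩ := f.ker D hD0
    refine ⟨D', hpure D' (by rw [← hD']; exact hDN), ?_⟩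
    rw [h1, hD', smul_smul, ← sq]

end Pool.Agent.PST.H13
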