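import Pool.Agent.PST.StmtsK4

/-!
# Row YCE of squad PST: the element given by a vertex `r`
-/

set_option autoImplicit false

open scoped BigOperators

noncomputable section

namespace Pool.Agent.PST.H13

open Pool.Agent.PSS
open Pool.Agent.PFC (IsTv)

/-- powers of `r` modulo a subgroup which contains `r ^ ℓ` but not `r` -/
theorem pow_sep {V : Type} [CommGroup V] {ℓ : ℕ} (hℓ : ℓ.Prime) {r : V} {W : Subgroup V} (hr : r ∉ W)
    (hrl : r ^ ℓ ∈ W) {j k : ℕ} (hj : j < ℓ) (hk : k < ℓ) {p : V} (h1 : (r ^ j)⁻¹ * p ∈ W)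
    (h2 : (r ^ k)⁻¹ * p ∈ W) : j = k := by
  have huq0 : ∀ j k : ℕ, j < k → k < ℓ → (r ^ j)⁻¹ * p ∈ W → (r ^ k)⁻¹ * p ∈ W → False := by
    intro j k hjk hk h1 h2
    have h3 : r ^ (k - j) ∈ W := by
      have h4 := W.mul_mem h1 (W.inv_mem h2)
      have e : (r ^ j)⁻¹ * p * ((r ^ k)⁻¹ * p)⁻¹ = r ^ (k - j) := by
        rw [mul_inv_rev, inv_inv, mul_assoc, mul_inv_cancel_left, inv_mul_eq_iff_eq_mul, ← pow_add]
        congr 1
        omega
      rwa [e] at h4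
    have hcop : Nat.Coprime (k - j) ℓ := (Nat.coprime_of_lt_prime (by omega) (by omega) hℓ).symm
    obtain ⟨a, b, hab⟩ := Nat.isCoprime_iff_coprime.2 hcop
    apply hr
    have e : r = (r ^ (k - j)) ^ a * (r ^ ℓ) ^ b := by
      rw [← zpow_natCast r, ← zpow_natCast r, ← zpow_mul, ← zpow_mul, ← zpow_add,
        mul_comm (((k - j : ℕ)) : ℤ), mul_comm ((ℓ : ℕ) : ℤ), hab, zpow_one]
    rw [e]
    exact W.mul_mem (W.zpow_mem h3 _) (W.zpow_mem hrl _)
  rcases lt_trichotomy j k with h | h | h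
  · exact (huq0 j k h hk h1 h2).elim
  · exact h
  · exact (huq0 k j h hj h2 h1).elim

/-- the traces from `⟨r ^ ℓ⟩` to `⟨r⟩` -/
theorem tr_mem {R V A : Type} [CommRing R] [CommGroup V] [Finite V] [Ring A] [Algebra R A]
    {α : V →* A} {ℓ : ℕ} (hℓ : ℓ.Prime) {r : V} {W : Subgroup V} (hr : r ∉ W) (hrl : r ^ ℓ ∈ W)
    {h : A} (hh : α (r ^ ℓ) * h = h * α (r ^ ℓ)) :
    ∑ j ∈ Finset.range ℓ, α (r ^ j) * h * α (r ^ j)⁻¹ ∈ BKR (cw R α) (Subgroup.zpowers r) := by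
  classical
  have hle : Subgroup.zpowers (r ^ ℓ) ≤ W := by
    rw [Subgroup.zpowers_le]
    exact hrl
  have hsep : ∀ j < ℓ, ∀ k < ℓ, r ^ j = r ^ k → j = k := by
    intro j hj k hk h
    refine pow_sep hℓ hr hrl hj hk (p := r ^ j) ?_ ?_
    · rw [inv_mul_cancel]
      exact W.one_mem
    · rw [h, inv_mul_cancel]
      exact W.one_mem
  refine Submodule.subset_span ⟨Subgroup.zpowers (r ^ ℓ), (Finset.range ℓ).image fun j => r ^ j, h,
    ?_, ⟨?_, ?_⟩, ?_, ?_⟩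
  · apply SetLike.lt_iff_le_and_exists.2
    refine ⟨?_, r, Subgroup.mem_zpowers r, fun h => hr (hle h)⟩
    rw [Subgroup.zpowers_le]
    exact Subgroup.pow_mem _ (Subgroup.mem_zpowers r) _
  · intro s hs
    rw [Finset.mem_image] at hs
    obtain ⟨j, _, rfl⟩ := hs
    exact Subgroup.pow_mem _ (Subgroup.mem_zpowers r) _
  · intro p hp
    obtain ⟨n, rfl⟩ := mem_powers_iff_mem_zpowers.2 hp
    simp only
    have e : (r ^ (n % ℓ))⁻¹ * r ^ n = (r ^ ℓ) ^ (n / ℓ) := by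
      have e1 : r ^ n = r ^ (n % ℓ) * (r ^ ℓ) ^ (n / ℓ) := by
        rw [← pow_mul, ← pow_add, Nat.mod_add_div]
      rw [e1, inv_mul_cancel_left]
    refine ⟨r ^ (n % ℓ), ⟨Finset.mem_image_of_mem _ (Finset.mem_range.2 (Nat.mod_lt _ hℓ.pos)), ?_⟩,
      ?_⟩
    · rw [e]
      exact Subgroup.pow_mem _ (Subgroup.mem_zpowers _) _
    · rintro y ⟨hy1, hy2⟩
      rw [Finset.mem_image] at hy1
      obtain ⟨k, hk, rfl⟩ := hy1
      rw [Finset.mem_range] at hk
      have h1 : (r ^ (n % ℓ))⁻¹ * r ^ n ∈ W := by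
        rw [e]
        exact W.pow_mem hrl _
      rw [pow_sep hℓ hr hrl hk (Nat.mod_lt n hℓ.pos) (hle hy2) h1]
  · rw [mem_cw]
    intro q hq
    obtain ⟨n, rfl⟩ := mem_powers_iff_mem_zpowers.2 hq
    simp only
    rw [map_pow]
    exact (Commute.pow_left hh n).eq
  · rw [Finset.sum_image]
    · refine Finset.sum_congr rfl fun j _ => ?_
      change _ = α (r ^ j) * (h * α (r ^ j)⁻¹)
      rw [mul_assoc]
    · intro j hj k hk h
      exact hsep j (Finset.mem_range.1 hj) k (Finset.mem_range.1 hk) h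

theorem yce : YceStmt := by
  intro ℓ _ R K V A B κ Ω _ _ _ _ _ _ _ _ _ _ _ _ _ W α lam x y b c C g r e _ hg hg1 hI hr hrl he
  have hℓ : ℓ.Prime := Fact.out
  obtain ⟨β, hβ⟩ : ∃ β : V →* B, β = ia C.i α := ⟨_, rfl⟩
  have hβa : ∀ v, C.i (α v) = β v := fun v => by rw [hβ]; rfl
  have hcc : ∀ v w : V, Commute (β v) (β w) := fun v w => by
    change β v * β w = β w * β v
    rw [← map_mul, ← map_mul, mul_comm]
  have hinv : ∀ v : V, β v * β v⁻¹ = 1 := fun v => by rw [← map_mul, mul_inv_cancel, map_one]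
  have hinv' : ∀ v : V, β v⁻¹ * β v = 1 := fun v => by rw [← map_mul, inv_mul_cancel, map_one]
  rw [← hβ] at hg
  -- values of `g` commute with `r ^ ℓ`
  have hgc : ∀ a : B, Commute (β (r ^ ℓ)) a → Commute (β (r ^ ℓ)) (g a) := by
    intro a ha
    have h1 := hg (r ^ ℓ) hrl a
    change β (r ^ ℓ) * g a = g a * β (r ^ ℓ)
    rw [← h1.1, ← h1.2, ha.eq]
  obtain ⟨s, hs⟩ : ∃ s, s = g (β r) * β r⁻¹ := ⟨_, rfl⟩
  have hsc : Commute (β (r ^ ℓ)) s := by
    rw [hs]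
    exact (hgc _ (hcc _ _)).mul_right (hcc _ _)
  -- shift
  have hpow : ∀ j, β (r ^ (j + 1)) = β r * β (r ^ j) := fun j => by rw [← map_mul, ← pow_succ']
  have hpowi : ∀ j, β (r ^ (j + 1))⁻¹ = β (r ^ j)⁻¹ * β r⁻¹ := fun j => by
    rw [← map_mul, ← mul_inv_rev, ← pow_succ']
  have hpowi' : ∀ j, β (r ^ (j + 1))⁻¹ = β r⁻¹ * β (r ^ j)⁻¹ := fun j => by
    rw [← map_mul, ← mul_inv_rev, ← pow_succ]
  have hper : ∀ t : B, Commute (β (r ^ ℓ)) t → β (r ^ ℓ) * t * β (r ^ ℓ)⁻¹ = t := by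
    intro t ht
    rw [ht.eq, mul_assoc, hinv, mul_one]
  have hE : C.i e = ∑ j ∈ Finset.range ℓ, β (r ^ j) * s * β (r ^ j)⁻¹ := by
    rw [he]
    have h1 : ∀ j, d1 g (C.i (α (r ^ j))) (C.i (α r)) * C.i (α (r ^ (j + 1))⁻¹) =
        β (r ^ j) * s * β (r ^ j)⁻¹ - (g (β (r ^ (j + 1))) * β (r ^ (j + 1))⁻¹ -
          g (β (r ^ j)) * β (r ^ j)⁻¹) := by
      intro j
      rw [hβa, hβa, hβa]
      unfold d1
      rw [← (hcc r (r ^ j)).eq, ← hpow, add_mul, sub_mul, hs]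
      have e1 : β (r ^ j) * g (β r) * β (r ^ (j + 1))⁻¹ =
          β (r ^ j) * (g (β r) * β r⁻¹) * β (r ^ j)⁻¹ := by
        rw [hpowi']
        simp only [mul_assoc]
      have e2 : g (β (r ^ j)) * β r * β (r ^ (j + 1))⁻¹ = g (β (r ^ j)) * β (r ^ j)⁻¹ := by
        rw [hpowi', mul_assoc, ← mul_assoc (β r), hinv, one_mul]
      rw [e1, e2]
      abel
    simp only [h1]
    rw [Finset.sum_sub_distrib, Finset.sum_range_sub (fun j => g (β (r ^ j)) * β (r ^ j)⁻¹)]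
    have e3 : g (β (r ^ ℓ)) = 0 := by
      have h2 := (hg (r ^ ℓ) hrl 1).1
      rw [mul_one, hg1, mul_zero] at h2
      exact h2
    rw [e3, pow_zero, map_one, hg1]
    simp
  have hcomm : ∀ t : B, Commute (β (r ^ ℓ)) t →
      β r * (∑ j ∈ Finset.range ℓ, β (r ^ j) * t * β (r ^ j)⁻¹) =
        (∑ j ∈ Finset.range ℓ, β (r ^ j) * t * β (r ^ j)⁻¹) * β r := by
    intro t ht
    have h1 : β r * (∑ j ∈ Finset.range ℓ, β (r ^ j) * t * β (r ^ j)⁻¹) * β r⁻¹ =
        ∑ j ∈ Finset.range ℓ, β (r ^ (j + 1)) * t * β (r ^ (j + 1))⁻¹ := by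
      rw [Finset.mul_sum, Finset.sum_mul]
      refine Finset.sum_congr rfl fun j _ => ?_
      rw [hpow, hpowi]
      simp only [mul_assoc]
    have h2 := Finset.sum_range_succ (fun j => β (r ^ j) * t * β (r ^ j)⁻¹) ℓ
    have h3 := Finset.sum_range_succ' (fun j => β (r ^ j) * t * β (r ^ j)⁻¹) ℓ
    rw [hper t ht] at h2
    rw [h3] at h2
    have h4 : β (r ^ 0) * t * β (r ^ 0)⁻¹ = t := by
      rw [pow_zero, inv_one, map_one, one_mul, mul_one]
    rw [h4] at h2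
    have h5 := add_right_cancel h2
    rw [h5] at h1
    rw [← h1, mul_assoc (β r * _), hinv', mul_one]
    rw [h1]
  constructor
  · apply C.inj
    rw [map_mul, map_mul, hβa, hE]
    exact (hcomm s hsc).symm
  · intro a ha
    have ha' : Commute (C.i a) (β r) := by
      have := congrArg C.i ha
      rw [map_mul, map_mul, hβa] at this
      exact this
    have hap : ∀ n : ℕ, Commute (C.i a) (β (r ^ n)) := by
      intro n
      rw [map_pow]
      exact ha'.pow_right n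
    have hai : ∀ v : V, Commute (C.i a) (β v) → Commute (C.i a) (β v⁻¹) := by
      intro v hv
      change C.i a * β v⁻¹ = β v⁻¹ * C.i a
      calc C.i a * β v⁻¹ = β v⁻¹ * β v * C.i a * β v⁻¹ := by rw [hinv', one_mul]
        _ = β v⁻¹ * (β v * C.i a) * β v⁻¹ := by simp only [mul_assoc]
        _ = β v⁻¹ * (C.i a * β v) * β v⁻¹ := by rw [hv.eq]
        _ = β v⁻¹ * C.i a * (β v * β v⁻¹) := by simp only [mul_assoc]
        _ = β v⁻¹ * C.i a := by rw [hinv, mul_one]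
    obtain ⟨a1, ha1⟩ := hI a (α r)
    obtain ⟨a2, ha2⟩ := hI (α r) a
    have hga : Commute (β (r ^ ℓ)) (g (C.i a)) := hgc _ (hap ℓ).symm
    have hih : C.i ((a1 - a2) * α r⁻¹) =
        (C.i a * s - s * C.i a) + (g (C.i a) - β r * g (C.i a) * β r⁻¹) := by
      rw [map_mul, map_sub, ha1, ha2, hβa, hβa]
      unfold d1
      rw [ha'.eq, hs]
      have e1 : g (β r) * C.i a * β r⁻¹ = g (β r) * β r⁻¹ * C.i a := by
        rw [mul_assoc, (hai r ha').eq, mul_assoc]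
      have e2 : g (C.i a) * β r * β r⁻¹ = g (C.i a) := by rw [mul_assoc, hinv, mul_one]
      have e3 : (C.i a * g (β r) - g (β r * C.i a) + g (C.i a) * β r -
          (β r * g (C.i a) - g (β r * C.i a) + g (β r) * C.i a)) * β r⁻¹ =
          C.i a * g (β r) * β r⁻¹ + g (C.i a) * β r * β r⁻¹ - β r * g (C.i a) * β r⁻¹ -
            g (β r) * C.i a * β r⁻¹ := by
        simp only [add_mul, sub_mul]
        abel
      rw [e3, e1, e2, mul_assoc (C.i a)]
      abel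
    have hhc : α (r ^ ℓ) * ((a1 - a2) * α r⁻¹) = (a1 - a2) * α r⁻¹ * α (r ^ ℓ) := by
      apply C.inj
      rw [map_mul C.i (α (r ^ ℓ)), map_mul C.i _ (α (r ^ ℓ)), hih, hβa]
      have c1 : Commute (β (r ^ ℓ)) (C.i a) := (hap ℓ).symm
      exact (((c1.mul_right hsc).sub_right (hsc.mul_right c1)).add_right
        (hga.sub_right (((hcc _ _).mul_right hga).mul_right (hcc _ _)))).eq
    have hmain : a * e - e * a = ∑ j ∈ Finset.range ℓ,
        α (r ^ j) * ((a1 - a2) * α r⁻¹) * α (r ^ j)⁻¹ := by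
      apply C.inj
      rw [map_sub, map_mul, map_mul, hE, map_sum]
      have e1 : ∀ j, C.i (α (r ^ j) * ((a1 - a2) * α r⁻¹) * α (r ^ j)⁻¹) =
          (C.i a * (β (r ^ j) * s * β (r ^ j)⁻¹) - β (r ^ j) * s * β (r ^ j)⁻¹ * C.i a) -
          (β (r ^ (j + 1)) * g (C.i a) * β (r ^ (j + 1))⁻¹ -
            β (r ^ j) * g (C.i a) * β (r ^ j)⁻¹) := by
        intro j
        rw [map_mul, map_mul C.i (α (r ^ j)), hih, hβa, hβa]
        have f1 : β (r ^ j) * (C.i a * s) * β (r ^ j)⁻¹ = C.i a * (β (r ^ j) * s * β (r ^ j)⁻¹) := by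
          rw [← mul_assoc, ← (hap j).eq]
          simp only [mul_assoc]
        have f2 : β (r ^ j) * (s * C.i a) * β (r ^ j)⁻¹ = β (r ^ j) * s * β (r ^ j)⁻¹ * C.i a := by
          rw [mul_assoc (β (r ^ j)), mul_assoc s, (hai _ (hap j)).eq]
          simp only [mul_assoc]
        have f3 : β (r ^ j) * (β r * g (C.i a) * β r⁻¹) * β (r ^ j)⁻¹ =
            β (r ^ (j + 1)) * g (C.i a) * β (r ^ (j + 1))⁻¹ := by
          rw [hpow, hpowi', (hcc r (r ^ j)).eq]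
          simp only [mul_assoc]
        rw [mul_add, add_mul, mul_sub, sub_mul, mul_sub, sub_mul, f1, f2, f3]
        abel
      simp only [e1]
      rw [Finset.sum_sub_distrib, Finset.sum_range_sub
        (fun j => β (r ^ j) * g (C.i a) * β (r ^ j)⁻¹), hper _ hga, pow_zero, inv_one, map_one,
        one_mul, mul_one, sub_self, sub_zero, Finset.sum_sub_distrib, Finset.mul_sum,
        Finset.sum_mul]
    rw [hmain]
    exact tr_mem hℓ hr hrl hhc

end Pool.Agent.PST.H13
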