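import Pool.Agent.PST.StmtsDR
import Pool.Agent.Helper21_PSS.DRF

/-!
# Row YQT of squad PST: the element `Y` as a sum over the orbits of `1 × V`
-/

set_option autoImplicit false

open scoped BigOperators

noncomputable section

namespace Pool.Agent.PST.H13

open Pool.Agent.PFD.D2b (FrR)
open Pool.Agent.PSS
open Pool.Agent.PSS.S2 (PrD Nh Cn CV)
open Pool.Agent.PSS.H21.DRF (pt pt_bij)

theorem yqt : YqtStmt := by
  intro F V A K Ω _ _ _ _ _ _ _ _ α lam x y b d c κ X hRF hFr hD hc hκ hX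
  have hsum : ∀ g : Ω → A, ∑ k : Qt (V := V) Ω, ∑ v : V, g (pt (k, v)) = ∑ ω, g ω := by
    intro g
    rw [← Fintype.sum_prod_type' (f := fun (k : Qt (V := V) Ω) (v : V) => g (pt (k, v)))]
    exact Equiv.sum_comp (Equiv.ofBijective _ (pt_bij hD.fr)) g
  have hb : ∀ (k : Qt (V := V) Ω) (v : V), b (pt (k, v)) = b k.rep * α v := by
    intro k v
    show b (((1, v⁻¹) : V × V) • k.rep) = _
    rw [hD.eb, map_one, one_mul, inv_inv]
  have hd : ∀ (k : Qt (V := V) Ω) (v : V), d (pt (k, v)) = α v⁻¹ * d k.rep := by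
    intro k v
    show d (((1, v⁻¹) : V × V) • k.rep) = _
    rw [hD.ed, inv_one, map_one, mul_one]
  have hk : ∀ (k : Qt (V := V) Ω) (v : V), κ (pt (k, v)) = κ k.rep := fun k v => hκ _ _
  have hL : ∑ k, Nh κ b c (x k) * (X * y k) =
      ∑ ω, κ ω • (b ω * X * ∑ k, c ω (x k) • y k) := by
    have h1 : ∀ k, Nh κ b c (x k) * (X * y k) =
        ∑ ω, κ ω • (b ω * X * (c ω (x k) • y k)) := by
      intro k
      unfold Nh
      rw [LinearMap.sum_apply, Finset.sum_mul]
      refine Finset.sum_congr rfl fun ω _ => ?_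
      rw [LinearMap.smulRight_apply, mul_smul_comm, smul_smul, smul_mul_assoc, ← mul_assoc,
        smul_smul, mul_comm (κ ω)]
    simp only [h1]
    rw [Finset.sum_comm]
    refine Finset.sum_congr rfl fun ω _ => ?_
    rw [Finset.mul_sum, Finset.smul_sum]
  rw [hL, ← hsum]
  refine Finset.sum_congr rfl fun k _ => ?_
  have hdk : d k.rep = ∑ v : V, α v * ∑ j, c (pt (k, v)) (x j) • y j := by
    rw [← hRF.e2 (d k.rep), Finset.sum_comm]
    symm
    refine Fintype.sum_equiv (Equiv.inv V) _ _ fun v => ?_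
    rw [Equiv.inv_apply, Finset.mul_sum]
    refine Finset.sum_congr rfl fun j _ => ?_
    rw [inv_inv, mul_smul_comm, hc, hd]
    have h3 : lam (d k.rep * (x j * α v⁻¹)) = lam (α v⁻¹ * d k.rep * x j) := by
      rw [← mul_assoc, hRF.sym, mul_assoc]
    rw [h3]
  rw [hdk, Finset.mul_sum, Finset.smul_sum]
  refine Finset.sum_congr rfl fun v _ => ?_
  rw [hb, hk, mul_assoc (b k.rep) (α v) X, hX v]
  simp only [mul_assoc]

end Pool.Agent.PST.H13
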